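import Pool.Agent.H616Z.GLP.Main

/-!
Finite certificates for non-admissibility: from a certificate to a substitution.
-/

set_option autoImplicit false

namespace Pool.Agent.H616Z.GLP

open F

variable {α : Type}

/-- codes of formulas -/
def code : F ℕ → ℕ
  | .bot => 0
  | .var i => 3 * i + 1
  | .imp a b => 3 * Nat.pair (code a) (code b) + 2
  | .box n a => 3 * Nat.pair n (code a) + 3

/-- binary digits -/
def bit (c i : ℕ) : Prop := c / 2 ^ i % 2 = 1

theorem exists_bits (P : ℕ) (p : ℕ → Prop) (h : ∀ i, p i → i < P) :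
    ∃ c < 2 ^ P, ∀ i, bit c i ↔ p i := by
  classical
  refine ⟨Nat.ofBits fun i : Fin P => decide (p i), Nat.ofBits_lt_two_pow _, fun i => ?_⟩
  rw [bit, ← decide_eq_true_iff (p := _ = 1), ← Nat.testBit_eq_decide_div_mod_eq]
  rcases lt_or_ge i P with hi | hi
  · rw [Nat.testBit_ofBits_lt _ _ hi, decide_eq_true_iff]
  · rw [Nat.testBit_ofBits_ge _ _ hi]
    exact ⟨fun h1 => absurd h1 (by simp), fun h1 => absurd (h i h1) (by omega)⟩

/-- finite certificates -/
def Cert (K a b N : ℕ) (S : ℕ → ℕ → ℕ → Prop) (τ : ℕ → ℕ → Prop) : Prop :=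
  (∀ l < N, τ l a) ∧ (∃ l < N, ¬ τ l b) ∧ (∀ l < N, ¬ τ l 0) ∧
  (∀ l < N, ∀ x < K, ∀ y < K, 3 * Nat.pair x y + 2 < K →
    (τ l (3 * Nat.pair x y + 2) ↔ (τ l x → τ l y))) ∧
  (∀ l < N, ∀ n < K, ∀ x < K, 3 * Nat.pair n x + 3 < K → τ l (3 * Nat.pair n x + 3) →
    ∀ l' < N, S n l l' → τ l' x) ∧
  (∀ l < N, ∀ n < K, ∀ x < K, 3 * Nat.pair n x + 3 < K → ¬ τ l (3 * Nat.pair n x + 3) →
    ∃ l' < N, S n l l' ∧ ¬ τ l' x ∧ τ l' (3 * Nat.pair n x + 3)) ∧
  (∀ n < K, ∀ l < N, ∀ l' < N, ∀ l'' < N, S n l l' → S n l' l'' → S n l l'') ∧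
  (∀ n < K, ∀ j < n, ∀ l < N, ∀ l' < N, S n l l' →
    S j l l' ∧ ∀ l'' < N, (S j l l'' ↔ S j l' l'')) ∧
  (∀ n < K, ∀ z < 2 ^ N,
    (n = 0 ∨ (∃ i < N, bit z i) ∧ ∀ i < N, ∀ i' < N, bit z i → bit z i' → S (n - 1) i i') →
    ∃ r < N, (∀ i < N, bit z i → S n r i) ∧ ∀ j < K, ∀ x < K, 3 * Nat.pair j x + 3 < K → n ≤ j →
      (j = n → ∀ i < N, bit z i → τ i x ∧ τ i (3 * Nat.pair j x + 3)) →
      τ r (3 * Nat.pair j x + 3))

/-! ### towers of roots -/

/-- the successors of the root at each level -/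
def towerA (D : ℕ → (F α → Prop) → Prop) : ℕ → Set (F α → Prop)
  | 0 => {x | World x ∧ D 0 x}
  | n + 1 => {x | x ∈ towerA D n ∧
      (∀ ψ, x (box n ψ) ↔ ∀ z ∈ towerA D n, z ψ ∧ z (box n ψ)) ∧ D (n + 1) x}

/-- truth at the root -/
def towerv (a : α → Prop) (D : ℕ → (F α → Prop) → Prop) : F α → Prop
  | var i => a i
  | bot => False
  | imp x y => towerv a D x → towerv a D y
  | box n ψ => ∀ z ∈ towerA D n, z ψ ∧ z (box n ψ)

section tower

variable {D D' : ℕ → (F α → Prop) → Prop}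

theorem towerA_anti {m k : ℕ} (h : m ≤ k) : towerA D k ⊆ towerA D m := by
  induction h with
  | refl => exact subset_rfl
  | step _ ih => exact fun x hx => ih hx.1

theorem towerA_world {k : ℕ} {x : F α → Prop} (h : x ∈ towerA D k) : World x :=
  (towerA_anti (Nat.zero_le k) h).1

theorem towerA_D {k : ℕ} {x : F α → Prop} (h : x ∈ towerA D k) : D k x := by
  cases k with
  | zero => exact h.2
  | succ k => exact h.2.2

theorem towerA_congr {n : ℕ} (h : ∀ j ≤ n, ∀ x, World x → (D j x ↔ D' j x)) :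
    towerA D n = towerA D' n := by
  induction n with
  | zero => exact Set.ext fun x => and_congr_right fun hx => h 0 le_rfl x hx
  | succ n ih =>
    have e := ih fun j hj => h j (by omega)
    refine Set.ext fun x => ?_
    simp only [towerA, Set.mem_ofPred_eq, ← e]
    exact and_congr_right fun hx => and_congr_right fun _ => h _ le_rfl x (towerA_world hx)

theorem world_tower (a : α → Prop) (D : ℕ → (F α → Prop) → Prop) : World (towerv a D) := by
  refine ⟨fun h => h, fun a b => Iff.rfl, fun a h => ?_⟩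
  induction h with
  | hyp h => exact absurd h (Set.notMem_empty _)
  | ax1 a b => exact fun h _ => h
  | ax2 a b c => exact fun h1 h2 h3 => h1 h3 (h2 h3)
  | ax3 a => exact fun h => by_contra fun hn => h hn
  | axK k a b =>
    intro h1 h2 z hz
    have hw := towerA_world hz
    exact ⟨(hw.imp _ _).1 (h1 z hz).1 (h2 z hz).1, hw.K (h1 z hz).2 (h2 z hz).2⟩
  | axL k a =>
    intro h1 z hz
    have hw := towerA_world hz
    have h2 := hw.mp (.axL k a) (h1 z hz).2
    exact ⟨(hw.imp _ _).1 (h1 z hz).1 h2, h2⟩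
  | axM m k a hmk =>
    intro h1 z hz
    have h2 := h1 z (towerA_anti hmk hz)
    exact ⟨h2.1, (towerA_world hz).mono hmk h2.2⟩
  | axP m k a hmk =>
    intro h1 z hz
    have hw := towerA_world hz
    have h5 : z (neg (box m (imp a bot))) :=
      (hw.neg _).2 fun h6 => h1 (((towerA_anti (Nat.succ_le_of_lt hmk) hz).2.1 _).1 h6)
    exact ⟨h5, hw.mp (.axP m k a hmk) h5⟩
  | mp _ _ h1 h2 => exact h2 h1
  | nec k h _ => exact fun z hz => ⟨(towerA_world hz).thm _ h, (towerA_world hz).thm _ (.nec k h)⟩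

theorem mem_tower (a : α → Prop) {n : ℕ} (h : ∀ j < n, ∀ x, World x → (D j x ↔ D' j x))
    (h2 : ∀ j ≤ n, D j (towerv a D')) : towerv a D' ∈ towerA D n := by
  induction n with
  | zero => exact ⟨world_tower a D', h2 0 le_rfl⟩
  | succ n ih =>
    refine ⟨ih (fun j hj => h j (by omega)) fun j hj => h2 j (by omega), fun ψ => ?_, h2 _ le_rfl⟩
    rw [towerA_congr fun j hj => h j (Nat.lt_succ_of_le hj)]
    exact Iff.rfl

end tower

/-- a definable labelling of the canonical model, by recursion along the accessibility relations -/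
theorem exists_labelling (K N : ℕ) (lab : (ℕ → ℕ → Prop) → (ℕ → Prop) → ℕ) :
    ∃ Z : (F ℕ → Prop) → ℕ → ℕ → Prop,
      (∀ P : (ℕ → ℕ → Prop) → (ℕ → Prop) → Prop, ∃ A : F ℕ, ∀ w, World w →
        (w A ↔ P (Z w) fun l => l < N ∧ w (var l))) ∧
      ∀ w, World w → ∀ n l, Z w n l ↔ n < K ∧ l < N ∧
        ∃ z, R n w z ∧ lab (Z z) (fun l => l < N ∧ z (var l)) = l := by
  classical
  set U : Finset ((ℕ × ℕ) ⊕ ℕ) := (Finset.range K ×ˢ Finset.range N).image .inl with hU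
  have hA : ∀ P : (ℕ → ℕ → Prop) → (ℕ → Prop) → Prop, ∃ A : F ((ℕ × ℕ) ⊕ ℕ), (∀ m, Lev m A) ∧
      ∀ b c, ev b c A ↔ P (fun n l => n < K ∧ l < N ∧ ¬ b (.inl (n, l)))
        fun l => l < N ∧ b (.inr l) := fun P =>
    bool_rep (U ∪ (Finset.range N).image .inr) _ fun b b' h => by
      have e1 : (fun n l => n < K ∧ l < N ∧ ¬ b (.inl (n, l))) =
          fun n l => n < K ∧ l < N ∧ ¬ b' (.inl (n, l)) := by
        funext n l
        refine propext (and_congr_right fun h1 => and_congr_right fun h2 => not_congr (h _ ?_))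
        simp [hU, h1, h2]
      have e2 : (fun l => l < N ∧ b (.inr l)) = fun l => l < N ∧ b' (.inr l) := by
        funext l
        refine propext (and_congr_right fun h1 => h _ ?_)
        simp [h1]
      rw [e1, e2]
  choose A hA1 hA2 using hA
  obtain ⟨τ, h1, h2⟩ := fix_all (Sum.elim Prod.fst fun _ => 0) U
    (Sum.elim (fun p => neg (A fun Z Q => lab Z Q = p.2)) fun _ => bot) fun u _ u' _ => by
      rcases u with p | u
      · exact ⟨hA1 _ _, trivial⟩
      · trivial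
  let κ : (ℕ × ℕ) ⊕ ℕ → F ℕ := Sum.elim (fun _ => bot) var
  let ρ : (ℕ × ℕ) ⊕ ℕ → F ℕ := fun u => sub κ (τ u)
  have hr : ∀ l, ρ (.inr l) = var l := fun l => by
    simp only [ρ, h1 (.inr l) (by simp [hU]), sub, κ, Sum.elim_inr]
  have h3 : ∀ P w, World w → (w (sub ρ (A P)) ↔
      P (fun n l => n < K ∧ l < N ∧ ¬ w (ρ (.inl (n, l)))) fun l => l < N ∧ w (var l)) :=
    fun P w hw => by simp only [hw.ev ρ (A P), hA2, hr]
  refine ⟨fun w n l => n < K ∧ l < N ∧ ¬ w (ρ (.inl (n, l))), fun P => ⟨_, h3 P⟩,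
    fun w hw n l => and_congr_right fun hn => and_congr_right fun hl => ?_⟩
  have h4 := h2 (.inl (n, l)) (by simp [hU, hn, hl]) _ (hw.pull κ)
  simp only [Sum.elim_inl, sub, F.sub_sub] at h4
  rw [show w (ρ (.inl (n, l))) = w (sub κ (τ (.inl (n, l)))) from rfl, h4, hw.box]
  push Not
  exact exists_congr fun z => and_congr_right fun hz => by rw [hz.1.neg, not_not, h3 _ z hz.1]

theorem code_lt_imp (a b : F ℕ) : code a < code (imp a b) ∧ code b < code (imp a b) := by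
  have h1 := Nat.left_le_pair (code a) (code b)
  have h2 := Nat.right_le_pair (code a) (code b)
  simp only [code]
  omega

theorem code_lt_box (n : ℕ) (a : F ℕ) : n < code (box n a) ∧ code a < code (box n a) := by
  have h1 := Nat.left_le_pair n (code a)
  have h2 := Nat.right_le_pair n (code a)
  simp only [code]
  omega

/-- a label fits the labels seen from a world -/
def Adm (K N : ℕ) (S : ℕ → ℕ → ℕ → Prop) (τ : ℕ → ℕ → Prop) (Z : ℕ → ℕ → Prop) (l : ℕ) : Prop :=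
  l < N ∧ (∀ n l', Z n l' → S n l l') ∧ ∀ n < K, ∀ x < K, 3 * Nat.pair n x + 3 < K →
    ¬ τ l (3 * Nat.pair n x + 3) → ∃ l', Z n l' ∧ ¬ τ l' x

theorem sub_of_cert {K N : ℕ} {φ ψ : F ℕ} (hφ : code φ < K) (hψ : code ψ < K)
    {S : ℕ → ℕ → ℕ → Prop} {τ : ℕ → ℕ → Prop} (hc : Cert K (code φ) (code ψ) N S τ) :
    ∃ σ : ℕ → F ℕ, Prov ∅ (sub σ φ) ∧ ¬ Prov ∅ (sub σ ψ) := by
  classical
  obtain ⟨c1, c2, c3, c4, c5, c6, c7, c8, c9⟩ := hc
  let lab0 : (ℕ → ℕ → Prop) → (ℕ → Prop) → ℕ := fun Z Q =>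
    if ∃ l, Q l ∧ Adm K N S τ Z l then Classical.epsilon fun l => Q l ∧ Adm K N S τ Z l
    else Classical.epsilon (Adm K N S τ Z)
  have hl0 : ∀ Z Q, (∃ l, Adm K N S τ Z l) → Adm K N S τ Z (lab0 Z Q) := fun Z Q h => by
    simp only [lab0]
    split_ifs with h1
    · exact (Classical.epsilon_spec h1).2
    · exact Classical.epsilon_spec h
  obtain ⟨Z, hdef, hZ⟩ := exists_labelling K N lab0
  let lab : (F ℕ → Prop) → ℕ := fun w => lab0 (Z w) fun l => l < N ∧ w (var l)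
  have hZ' : ∀ w, World w → ∀ n l, Z w n l ↔ n < K ∧ l < N ∧ ∃ z, R n w z ∧ lab z = l := hZ
  have hbox : ∀ l < N, ∀ n < K, ∀ x < K, 3 * Nat.pair n x + 3 < K →
      (τ l (3 * Nat.pair n x + 3) ↔ ∀ l' < N, S n l l' → τ l' x) := fun l hl n hn x hx hk =>
    ⟨c5 l hl n hn x hx hk, fun h => by_contra fun h1 => by
      obtain ⟨l', h2, h3, h4, -⟩ := c6 l hl n hn x hx hk h1
      exact h4 (h l' h2 h3)⟩
  have hlow : ∀ {n l l'}, n < K → l < N → l' < N → S n l l' → ∀ j < n, ∀ x < K,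
      3 * Nat.pair j x + 3 < K → (τ l (3 * Nat.pair j x + 3) ↔ τ l' (3 * Nat.pair j x + 3)) :=
    fun {n l l'} hn hl hl' h j hj x hx hk => by
      rw [hbox l hl j (by omega) x hx hk, hbox l' hl' j (by omega) x hx hk]
      exact forall_congr' fun m => imp_congr_right fun hm =>
        imp_congr_left ((c8 n hn j hj l hl l' hl' h).2 m hm)
  have hZlow : ∀ {w z n}, World w → R n w z → ∀ j < n, ∀ l, Z z j l ↔ Z w j l :=
    fun {w z n} hw h j hj l => by
      rw [hZ' w hw, hZ' z h.1]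
      simp only [R, h.box_iff hw hj]
  have hZle : ∀ {w z n}, World w → R n w z → ∀ l, Z z n l → Z w n l := fun {w z n} hw h l => by
    rw [hZ' w hw, hZ' z h.1]
    rintro ⟨h1, h2, y, h3, h4⟩
    exact ⟨h1, h2, y, ⟨h3.1, fun a ha => h3.2 a (h.box_le hw le_rfl ha)⟩, h4⟩
  have hZmono : ∀ {w}, World w → ∀ {j n}, j ≤ n → ∀ l, Z w n l → Z w j l :=
    fun {w} hw {j n} hj l => by
      rw [hZ' w hw, hZ' w hw]
      rintro ⟨h1, h2, y, h3, h4⟩
      exact ⟨by omega, h2, y, ⟨h3.1, fun a ha => h3.2 a (hw.mono hj ha)⟩, h4⟩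
  have hadm : ∀ w, World w → Adm K N S τ (Z w) (lab w) := by
    obtain ⟨E, hE⟩ := hdef fun Z Q => Adm K N S τ Z (lab0 Z Q)
    refine fun w hw => (hE w hw).1 (loeb_rule 0 (fun w hw h => (hE w hw).2 (hl0 _ _ ?_)) w hw)
    have ih : ∀ n z, R n w z → Adm K N S τ (Z z) (lab z) := fun n z hz =>
      (hE z hz.1).1 (hz.2 _ (hw.mono (Nat.zero_le n) h))
    set m := Nat.findGreatest (fun n => ∃ l, Z w n l) K with hm
    have hm1 : ∀ n l, Z w n l → n ≤ m := fun n l h1 =>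
      Nat.le_findGreatest ((hZ' w hw n l).1 h1).1.le ⟨l, h1⟩
    have hm2 : m ≠ 0 → ∃ l, Z w m l := fun h1 =>
      Nat.findGreatest_of_ne_zero (P := fun n => ∃ l, Z w n l) hm.symm h1
    have hm3 : m < K := by
      rcases Nat.eq_zero_or_pos m with h1 | h1
      · omega
      · obtain ⟨l, h2⟩ := hm2 h1.ne'
        exact ((hZ' w hw m l).1 h2).1
    obtain ⟨z, hz1, hz⟩ := exists_bits N (Z w m) fun i hi => ((hZ' w hw m i).1 hi).2.1
    obtain ⟨r, hr, h1, h2⟩ := c9 m hm3 z hz1 (by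
      rcases Nat.eq_zero_or_pos m with h1 | h1
      · exact .inl h1
      · obtain ⟨l, h2⟩ := hm2 h1.ne'
        refine .inr ⟨⟨l, ((hZ' w hw m l).1 h2).2.1, (hz l).2 h2⟩, fun i _ i' _ h3 h4 => ?_⟩
        obtain ⟨-, -, y, h5, rfl⟩ := (hZ' w hw m i).1 ((hz i).1 h3)
        exact (ih m y h5).2.1 _ _ ((hZlow hw h5 (m - 1) (by omega) i').2
          (hZmono hw (Nat.sub_le m 1) _ ((hz i').1 h4))))
    refine ⟨r, hr, fun n l' h3 => ?_, fun n hn x hx hk h3 => ?_⟩
    · have h4 := ((hZ' w hw n l').1 h3).2.1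
      rcases (hm1 n l' h3).lt_or_eq with h5 | h5
      · obtain ⟨l, h6⟩ := hm2 (by omega)
        obtain ⟨-, h7, y, h8, rfl⟩ := (hZ' w hw m l).1 h6
        exact ((c8 m hm3 n h5 r hr _ h7 (h1 _ h7 ((hz _).2 h6))).2 l' h4).2
          ((ih m y h8).2.1 _ _ ((hZlow hw h8 n h5 l').2 h3))
      · exact h5 ▸ h1 l' h4 ((hz _).2 (h5 ▸ h3))
    · rcases lt_or_ge n m with h5 | h5
      · obtain ⟨l, h6⟩ := hm2 (by omega)
        obtain ⟨-, h7, y, h8, rfl⟩ := (hZ' w hw m l).1 h6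
        obtain ⟨l', h9, h10⟩ := (ih m y h8).2.2 n hn x hx hk fun h9 =>
          h3 ((hlow hm3 hr h7 (h1 _ h7 ((hz _).2 h6)) n h5 x hx hk).2 h9)
        exact ⟨l', (hZlow hw h8 n h5 l').1 h9, h10⟩
      · by_contra h6
        push Not at h6
        refine h3 (h2 n hn x hx hk h5 fun h7 i _ h8 => ?_)
        have h9 : Z w n i := h7 ▸ (hz i).1 h8
        refine ⟨h6 i h9, by_contra fun h10 => ?_⟩
        obtain ⟨-, -, y, h11, rfl⟩ := (hZ' w hw n i).1 h9
        obtain ⟨l', h12, h13⟩ := (ih n y h11).2.2 n hn x hx hk h10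
        exact h13 (h6 l' (hZle hw h11 l' h12))
  have hsurj : ∀ l : Fin N, lab (towerv (fun i => i = l.1) fun n x => S n l (lab x)) = l.1 := by
    let pr : Fin N → Fin N → Prop := fun l' l => ∃ n,
      (∀ j < n, ∀ x < K, 3 * Nat.pair j x + 3 < K →
        (τ l (3 * Nat.pair j x + 3) ↔ τ l' (3 * Nat.pair j x + 3))) ∧
      (∀ x < K, 3 * Nat.pair n x + 3 < K →
        τ l (3 * Nat.pair n x + 3) → τ l' (3 * Nat.pair n x + 3)) ∧
      ∃ x < K, 3 * Nat.pair n x + 3 < K ∧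
        ¬ τ l (3 * Nat.pair n x + 3) ∧ τ l' (3 * Nat.pair n x + 3)
    haveI : IsTrans (Fin N) pr := ⟨by
      rintro a b c ⟨n, h1, h2, x, h3, h4, h5, h6⟩ ⟨n', h1', h2', x', h3', h4', h5', h6'⟩
      rcases lt_trichotomy n n' with h | h | h
      · exact ⟨n, fun j hj y hy hk => (h1' j (by omega) y hy hk).trans (h1 j hj y hy hk),
          fun y hy hk h7 => h2 y hy hk ((h1' n h y hy hk).1 h7),
          x, h3, h4, fun h7 => h5 ((h1' n h x h3 h4).1 h7), h6⟩
      · subst h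
        exact ⟨n, fun j hj y hy hk => (h1' j hj y hy hk).trans (h1 j hj y hy hk),
          fun y hy hk h7 => h2 y hy hk (h2' y hy hk h7), x', h3', h4', h5', h2 x' h3' h4' h6'⟩
      · exact ⟨n', fun j hj y hy hk => (h1' j hj y hy hk).trans (h1 j (by omega) y hy hk),
          fun y hy hk h7 => (h1 n' h y hy hk).1 (h2' y hy hk h7),
          x', h3', h4', h5', (h1 n' h x' h3' h4').1 h6'⟩⟩
    haveI : Std.Irrefl pr := ⟨by
      rintro a ⟨n, -, -, x, -, -, h5, h6⟩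
      exact h5 h6⟩
    intro l
    induction l using (Finite.wellFounded_of_trans_of_irrefl pr).induction with
    | _ l ih =>
    have hy := world_tower (fun i => i = l.1) fun n x => S n l (lab x)
    have h0 : Adm K N S τ (Z (towerv (fun i => i = l.1) fun n x => S n l (lab x))) l := by
      refine ⟨l.2, fun n l' h1 => ?_, fun n hn x hx hk h1 => ?_⟩
      · obtain ⟨hn, -, z, h2, rfl⟩ := (hZ' _ hy n l').1 h1
        obtain ⟨A, hA⟩ := hdef fun Z Q => S n l (lab0 Z Q)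
        refine (hA z h2.1).1 (h2.2 A fun x hx => ?_)
        have hw := towerA_world hx
        refine ⟨(hA x hw).2 (towerA_D hx), (hw.box _ _).2 fun y h3 => (hA y h3.1).2 ?_⟩
        exact c7 n hn l l.2 _ (hadm x hw).1 _ (hadm y h3.1).1 (towerA_D hx)
          ((hadm x hw).2.1 _ _ ((hZ' x hw n _).2 ⟨hn, (hadm y h3.1).1, y, h3, rfl⟩))
      · obtain ⟨l', h2, h3, h4, h5⟩ := c6 l l.2 n hn x hx hk h1
        have h6 := ih ⟨l', h2⟩ ⟨n, hlow hn l.2 h2 h3, fun y hy hk' h7 =>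
          (hbox l' h2 n hn y hy hk').2 fun m hm h8 =>
            c5 l l.2 n hn y hy hk' h7 m hm (c7 n hn l l.2 l' h2 m hm h3 h8), x, hx, hk, h1, h5⟩
        refine ⟨l', (hZ' _ hy n l').2 ⟨hn, h2, _, ⟨world_tower _ _, fun a ha => (ha _ ?_).1⟩, h6⟩,
          h4⟩
        refine mem_tower _ (fun j hj y hy' => (c8 n hn j hj l l.2 l' h2 h3).2 _ (hadm y hy').1)
          fun j hj => ?_
        rw [h6]
        rcases hj.lt_or_eq with h7 | h7
        · exact (c8 n hn j h7 l l.2 l' h2 h3).1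
        · exact h7 ▸ h3
    have h1 : ∃ i, (i < N ∧ towerv (fun i => i = l.1) (fun n x => S n l (lab x)) (var i)) ∧
        Adm K N S τ (Z (towerv (fun i => i = l.1) fun n x => S n l (lab x))) i :=
      ⟨l, ⟨l.2, rfl⟩, h0⟩
    simp only [lab, lab0]
    rw [if_pos h1]
    exact (Classical.epsilon_spec h1).1.2
  have hB : ∀ i : ℕ, ∃ A : F ℕ, ∀ w, World w → (w A ↔ τ (lab w) (3 * i + 1)) := fun i =>
    hdef fun Z Q => τ (lab0 Z Q) (3 * i + 1)
  choose σ hσ using hB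
  have truth : ∀ χ : F ℕ, code χ < K → ∀ w, World w → (w (sub σ χ) ↔ τ (lab w) (code χ)) := by
    intro χ
    induction χ with
    | var i => exact fun _ => hσ i
    | bot => exact fun _ w hw => ⟨fun h => absurd h hw.bot, fun h => absurd h (c3 _ (hadm w hw).1)⟩
    | imp a b iha ihb =>
      intro hk w hw
      obtain ⟨h1, h2⟩ := code_lt_imp a b
      rw [sub, hw.imp, iha (by omega) w hw, ihb (by omega) w hw]
      exact (c4 _ (hadm w hw).1 _ (by omega) _ (by omega) hk).symm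
    | box n a ih =>
      intro hk w hw
      obtain ⟨h1, h2⟩ := code_lt_box n a
      rw [sub, hw.box]
      refine ⟨fun h => by_contra fun h3 => ?_, fun h z hz => (ih (by omega) z hz.1).2 ?_⟩
      · obtain ⟨l', h4, h5⟩ := (hadm w hw).2.2 n (by omega) _ (by omega) hk h3
        obtain ⟨-, -, z, h6, rfl⟩ := (hZ' w hw n l').1 h4
        exact h5 ((ih (by omega) z h6.1).1 (h z h6))
      · exact c5 _ (hadm w hw).1 n (by omega) _ (by omega) hk h _ (hadm z hz.1).1
          ((hadm w hw).2.1 _ _ ((hZ' w hw n _).2 ⟨by omega, (hadm z hz.1).1, z, hz, rfl⟩))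
  refine ⟨σ, complete fun w hw => (truth φ hφ w hw).2 (c1 _ (hadm w hw).1), fun h => ?_⟩
  obtain ⟨l, hl, h1⟩ := c2
  have hy := world_tower (fun i => i = l) fun n x => S n l (lab x)
  have h2 := (truth ψ hψ _ hy).1 (hy.thm _ h)
  rw [hsurj ⟨l, hl⟩] at h2
  exact h1 h2

end Pool.Agent.H616Z.GLP
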