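import Pool.Agent.H616Z.GLP.Adm1

/-!
Finite certificates for non-admissibility: from a substitution to a certificate of bounded size.
-/

set_option autoImplicit false

namespace Pool.Agent.H616Z.GLP

open F Finset

variable {α : Type}

theorem loeb_wit {w : F α → Prop} (hw : World w) {n : ℕ} {a : F α} (h : ¬ w (box n a)) :
    ∃ z, R n w z ∧ ¬ z a ∧ z (box n a) := by
  by_contra hn
  push Not at hn
  refine h (hw.mp (.axL n a) ((hw.box _ _).2 fun z hz => (hz.1.imp _ _).2 fun h1 => ?_))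
  by_contra h2
  exact hn z hz h2 h1

section sel

variable (fm : ℕ → F α) (K : ℕ)

/-- witnesses at level `n` -/
def Wit (n : ℕ) (L : Finset (F α → Prop)) : Prop :=
  ∀ v ∈ L, ∀ x < K, ¬ v (box n (fm x)) → ∃ v' ∈ L, R n v v' ∧ ¬ v' (fm x) ∧ v' (box n (fm x))

/-- the largest set of successors at level `n` -/
def Aset (n : ℕ) (u : F α → Prop) (β : Finset ℕ) : Set (F α → Prop) :=
  {z | (World z ∧ ∀ j < n, ∀ a, (z (box j a) ↔ u (box j a)) ∧ (u (box j a) → z a)) ∧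
    ∀ x ∈ β, z (fm x) ∧ z (box n (fm x))}

/-- roots at level `n` -/
def Ext (n : ℕ) (L : Finset (F α → Prop)) : Prop :=
  ∀ u ∈ L, ∀ β ⊆ range K, ∃ r ∈ L, (∀ z ∈ Aset fm n u β, R n r z) ∧
    (∀ x ∈ β, r (box n (fm x))) ∧ ∀ j, n < j → ∀ a, r (box j a)

theorem Aset_congr {n : ℕ} {u v : F α → Prop} (h : ∀ j < n, ∀ a, v (box j a) ↔ u (box j a))
    (β : Finset ℕ) : Aset fm n v β = Aset fm n u β := by
  refine Set.ext fun z => and_congr_left fun _ => and_congr_right fun _ => ?_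
  exact forall_congr' fun j => imp_congr_right fun hj => forall_congr' fun a => by rw [h j hj a]

open Classical in
theorem wit_close (n k : ℕ) : ∀ w, World w →
    ((range K).filter fun x => ¬ w (box n (fm x))).card ≤ k →
    ∃ L : Finset (F α → Prop), w ∈ L ∧ L.card ≤ (K + 1) ^ k ∧
      (∀ v ∈ L, World v ∧ ∀ j < n, ∀ a, v (box j a) ↔ w (box j a)) ∧ Wit fm K n L := by
  induction k with
  | zero =>
    intro w hw h
    refine ⟨{w}, mem_singleton_self w, by simp, fun v hv => ?_, fun v hv x hx h1 => ?_⟩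
    · rw [mem_singleton.1 hv]
      exact ⟨hw, fun _ _ _ => Iff.rfl⟩
    · rw [mem_singleton.1 hv] at h1
      have h2 : x ∈ (range K).filter fun x => ¬ w (box n (fm x)) :=
        mem_filter.2 ⟨mem_range.2 hx, h1⟩
      have := card_pos.2 ⟨x, h2⟩
      omega
  | succ k ih =>
    intro w hw h
    have key : ∀ x ∈ (range K).filter fun x => ¬ w (box n (fm x)), ∃ L : Finset (F α → Prop),
        (∃ z ∈ L, R n w z ∧ ¬ z (fm x) ∧ z (box n (fm x))) ∧ L.card ≤ (K + 1) ^ k ∧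
        (∀ v ∈ L, World v ∧ ∀ j < n, ∀ a, v (box j a) ↔ w (box j a)) ∧ Wit fm K n L := by
      intro x hx
      obtain ⟨z, h1, h2, h3⟩ := loeb_wit hw (mem_filter.1 hx).2
      have h4 : ((range K).filter fun x => ¬ z (box n (fm x))) ⊂
          (range K).filter fun x => ¬ w (box n (fm x)) := by
        refine ⟨fun y hy => mem_filter.2 ⟨(mem_filter.1 hy).1, fun h5 =>
          (mem_filter.1 hy).2 (h1.box_le hw le_rfl h5)⟩, fun h5 => (mem_filter.1 (h5 hx)).2 h3⟩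
      obtain ⟨L, h5, h6, h7, h8⟩ := ih z h1.1 (by have := card_lt_card h4; omega)
      exact ⟨L, ⟨z, h5, h1, h2, h3⟩, h6, fun v hv => ⟨(h7 v hv).1, fun j hj a =>
        ((h7 v hv).2 j hj a).trans (h1.box_iff hw hj a)⟩, h8⟩
    choose! f hf using key
    refine ⟨insert w (((range K).filter fun x => ¬ w (box n (fm x))).biUnion f),
      mem_insert_self _ _, ?_, fun v hv => ?_, fun v hv x hx h1 => ?_⟩
    · have h1 := card_biUnion_le_card_mul _ f ((K + 1) ^ k) fun x hx => (hf x hx).2.1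
      have h2 : ((range K).filter fun x => ¬ w (box n (fm x))).card ≤ K :=
        (card_filter_le _ _).trans (card_range K).le
      have h3 := card_insert_le w (((range K).filter fun x => ¬ w (box n (fm x))).biUnion f)
      have h4 : 0 < (K + 1) ^ k := by positivity
      have h5 := Nat.mul_le_mul_right ((K + 1) ^ k) h2
      rw [pow_succ]
      nlinarith
    · rcases mem_insert.1 hv with rfl | hv
      · exact ⟨hw, fun _ _ _ => Iff.rfl⟩
      · obtain ⟨x, hx, hv⟩ := mem_biUnion.1 hv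
        exact (hf x hx).2.2.1 v hv
    · rcases mem_insert.1 hv with rfl | hv
      · have hx' : x ∈ (range K).filter fun x => ¬ v (box n (fm x)) :=
          mem_filter.2 ⟨mem_range.2 hx, h1⟩
        obtain ⟨z, h2, h3⟩ := (hf x hx').1
        exact ⟨z, mem_insert_of_mem (mem_biUnion.2 ⟨x, hx', h2⟩), h3⟩
      · obtain ⟨y, hy, hv⟩ := mem_biUnion.1 hv
        obtain ⟨z, h2, h3⟩ := (hf y hy).2.2.2 v hv x hx h1
        exact ⟨z, mem_insert_of_mem (mem_biUnion.2 ⟨y, hy, h2⟩), h3⟩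

theorem stage (n : ℕ) (L : Finset (F α → Prop)) (hL : ∀ v ∈ L, World v) :
    ∃ L' : Finset (F α → Prop), L ⊆ L' ∧ L'.card ≤ L.card * ((2 ^ K + 1) * (K + 1) ^ K) ∧
      (∀ v ∈ L', World v ∧ ∃ u ∈ L, ∀ j < n, ∀ a, v (box j a) ↔ u (box j a)) ∧
      Wit fm K n L' ∧ Ext fm K n L' := by
  classical
  have key : ∀ w, World w → ∃ L : Finset (F α → Prop), w ∈ L ∧ L.card ≤ (K + 1) ^ K ∧
      (∀ v ∈ L, World v ∧ ∀ j < n, ∀ a, v (box j a) ↔ w (box j a)) ∧ Wit fm K n L :=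
    fun w hw => wit_close fm K n K w hw (by
      convert (card_filter_le _ _).trans (card_range K).le)
  choose! f hf using key
  set L1 := L ∪ (L ×ˢ (range K).powerset).image fun p => rootv n p.1 (Aset fm n p.1 p.2) with hL1
  have h1 : ∀ w ∈ L1, World w ∧ ∃ u ∈ L, ∀ j < n, ∀ a, w (box j a) ↔ u (box j a) := by
    intro w hw
    rcases mem_union.1 hw with hw | hw
    · exact ⟨hL w hw, w, hw, fun _ _ _ => Iff.rfl⟩
    · obtain ⟨p, hp, rfl⟩ := mem_image.1 hw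
      have hu := (mem_product.1 hp).1
      exact ⟨world_root (hL _ hu) fun z hz => hz.1, p.1, hu, fun j hj a =>
        ⟨fun h => h.1 hj, fun h => ⟨fun _ => h, fun h2 => by omega⟩⟩⟩
  have h2 : ∀ v ∈ L1.biUnion f, World v ∧ ∃ u ∈ L, ∀ j < n, ∀ a, v (box j a) ↔ u (box j a) := by
    intro v hv
    obtain ⟨w, hw, hv⟩ := mem_biUnion.1 hv
    obtain ⟨h3, u, hu, h4⟩ := h1 w hw
    exact ⟨((hf w h3).2.2.1 v hv).1, u, hu, fun j hj a =>
      (((hf w h3).2.2.1 v hv).2 j hj a).trans (h4 j hj a)⟩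
  have h3 : L1 ⊆ L1.biUnion f := fun w hw => mem_biUnion.2 ⟨w, hw, (hf w (h1 w hw).1).1⟩
  refine ⟨L1.biUnion f, subset_union_left.trans h3, ?_, h2, fun v hv x hx h => ?_,
    fun v hv β hβ => ?_⟩
  · refine (card_biUnion_le_card_mul _ f _ fun w hw => (hf w (h1 w hw).1).2.1).trans ?_
    rw [← mul_assoc]
    refine Nat.mul_le_mul_right _ ((card_union_le _ _).trans ?_)
    have h4 := card_image_le (s := L ×ˢ (range K).powerset)
      (f := fun p => rootv n p.1 (Aset fm n p.1 p.2))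
    rw [card_product, card_powerset, card_range] at h4
    rw [mul_add, mul_one]
    omega
  · obtain ⟨w, hw, hv⟩ := mem_biUnion.1 hv
    obtain ⟨z, h4, h5⟩ := (hf w (h1 w hw).1).2.2.2 v hv x hx h
    exact ⟨z, mem_biUnion.2 ⟨w, hw, h4⟩, h5⟩
  · obtain ⟨-, u, hu, h4⟩ := h2 v hv
    rw [Aset_congr fm h4]
    refine ⟨rootv n u (Aset fm n u β), h3 (mem_union_right _ (mem_image.2
      ⟨(u, β), mem_product.2 ⟨hu, mem_powerset.2 hβ⟩, rfl⟩)),
      fun z hz => ⟨hz.1.1, fun a ha => (ha.2 rfl z hz).1⟩,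
      fun x hx => ⟨fun h => by omega, fun _ z hz => hz.2 x hx⟩,
      fun j hj a => ⟨fun h => by omega, fun h => by omega⟩⟩

theorem stages {x0 : F α → Prop} (h0 : World x0) (n : ℕ) :
    ∃ L : Finset (F α → Prop), x0 ∈ L ∧ L.card ≤ ((2 ^ K + 1) * (K + 1) ^ K) ^ n ∧
      (∀ v ∈ L, World v) ∧ ∀ j < n, Wit fm K j L ∧ Ext fm K j L := by
  induction n with
  | zero =>
    exact ⟨{x0}, mem_singleton_self _, by simp, fun v hv => mem_singleton.1 hv ▸ h0,
      fun j hj => absurd hj (by omega)⟩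
  | succ n ih =>
    obtain ⟨L, h1, h2, h3, h4⟩ := ih
    obtain ⟨L', h5, h6, h7, h8, h9⟩ := stage fm K n L h3
    refine ⟨L', h5 h1, h6.trans ?_, fun v hv => (h7 v hv).1, fun j hj => ?_⟩
    · rw [pow_succ]
      exact Nat.mul_le_mul_right _ h2
    · rcases (Nat.lt_succ_iff.1 hj).lt_or_eq with h | h
      · refine ⟨fun v hv x hx h10 => ?_, fun v hv β hβ => ?_⟩
        · obtain ⟨-, u, hu, h11⟩ := h7 v hv
          obtain ⟨z, h12, h13, h14⟩ := (h4 j h).1 u hu x hx fun h12 => h10 ((h11 j h _).2 h12)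
          exact ⟨z, h5 h12, ⟨h13.1, fun a ha => h13.2 a ((h11 j h a).1 ha)⟩, h14⟩
        · obtain ⟨-, u, hu, h11⟩ := h7 v hv
          obtain ⟨r, h12, h13⟩ := (h4 j h).2 u hu β hβ
          rw [Aset_congr fm fun i hi => h11 i (hi.trans h)]
          exact ⟨r, h5 h12, h13⟩
      · exact h ▸ ⟨h8, h9⟩

end sel

/-- decoding -/
def dec : ℕ → F ℕ
  | 0 => bot
  | k + 1 =>
    if k % 3 = 0 then var (k / 3)
    else if k % 3 = 1 then imp (dec (Nat.unpair (k / 3)).1) (dec (Nat.unpair (k / 3)).2)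
    else box (Nat.unpair (k / 3)).1 (dec (Nat.unpair (k / 3)).2)
decreasing_by
  · exact Nat.lt_succ_of_le ((Nat.unpair_left_le _).trans (Nat.div_le_self _ _))
  · exact Nat.lt_succ_of_le ((Nat.unpair_right_le _).trans (Nat.div_le_self _ _))
  · exact Nat.lt_succ_of_le ((Nat.unpair_right_le _).trans (Nat.div_le_self _ _))

theorem dec_zero : dec 0 = bot := by rw [dec]

theorem dec_imp (x y : ℕ) : dec (3 * Nat.pair x y + 2) = imp (dec x) (dec y) := by
  rw [show 3 * Nat.pair x y + 2 = (3 * Nat.pair x y + 1) + 1 from rfl, dec, if_neg (by omega),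
    if_pos (by omega), show (3 * Nat.pair x y + 1) / 3 = Nat.pair x y by omega, Nat.unpair_pair]

theorem dec_box (x y : ℕ) : dec (3 * Nat.pair x y + 3) = box x (dec y) := by
  rw [show 3 * Nat.pair x y + 3 = (3 * Nat.pair x y + 2) + 1 from rfl, dec, if_neg (by omega),
    if_neg (by omega), show (3 * Nat.pair x y + 2) / 3 = Nat.pair x y by omega, Nat.unpair_pair]

theorem dec_code (a : F ℕ) : dec (code a) = a := by
  induction a with
  | var i => rw [code, dec, if_pos (by omega), show 3 * i / 3 = i by omega]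
  | bot => exact dec_zero
  | imp a b iha ihb => rw [code, dec_imp, iha, ihb]
  | box n a ih => rw [code, dec_box, ih]

theorem cert_of_sub (K : ℕ) {φ ψ : F ℕ} (hφ : code φ < K) {σ : ℕ → F ℕ} (h1 : Prov ∅ (sub σ φ))
    (h2 : ¬ Prov ∅ (sub σ ψ)) :
    ∃ N ≤ ((2 ^ K + 1) * (K + 1) ^ K) ^ K, ∃ (S : ℕ → ℕ → ℕ → Prop) (τ : ℕ → ℕ → Prop),
      (∀ n i j, S n i j → n < K ∧ i < N ∧ j < N) ∧ (∀ i k, τ i k → i < N ∧ k < K) ∧
      Cert K (code φ) (code ψ) N S τ := by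
  classical
  obtain ⟨x0, h0, hx0⟩ : ∃ w, World w ∧ ¬ w (sub σ ψ) := by
    by_contra hn
    push Not at hn
    exact h2 (complete hn)
  obtain ⟨L, hL0, hcard, hw, hL⟩ := stages (fun k => sub σ (dec k)) K h0 K
  obtain ⟨e, he1, he2⟩ : ∃ e : ℕ → F ℕ → Prop, (∀ i < L.card, e i ∈ L) ∧
      ∀ v ∈ L, ∃ i < L.card, e i = v := by
    refine ⟨fun i => if h : i < L.card then (L.equivFin.symm ⟨i, h⟩).1 else x0, fun i hi => ?_,
      fun v hv => ⟨L.equivFin ⟨v, hv⟩, (L.equivFin ⟨v, hv⟩).2, ?_⟩⟩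
    · simp only [dif_pos hi]
      exact (L.equivFin.symm ⟨i, hi⟩).2
    · simp
  have hw' : ∀ i < L.card, World (e i) := fun i hi => hw _ (he1 i hi)
  refine ⟨L.card, hcard, fun n i j => n < K ∧ i < L.card ∧ j < L.card ∧ R n (e i) (e j),
    fun i k => i < L.card ∧ k < K ∧ e i (sub σ (dec k)), fun n i j h => ⟨h.1, h.2.1, h.2.2.1⟩,
    fun i k h => ⟨h.1, h.2.1⟩, fun l hl => ⟨hl, hφ, ?_⟩, ?_, fun l hl h => ?_,
    fun l hl x hx y hy hk => ?_, fun l hl n hn x hx hk h l' hl' h3 => ⟨hl', hx, ?_⟩,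
    fun l hl n hn x hx hk h => ?_, fun n hn l hl l' hl' l'' hl'' h3 h4 => ⟨hn, hl, hl'', ?_⟩,
    fun n hn j hj l hl l' hl' h => ?_, fun n hn z _ hz => ?_⟩
  · rw [dec_code]
    exact (hw' l hl).thm _ h1
  · obtain ⟨i, hi, h3⟩ := he2 x0 hL0
    refine ⟨i, hi, fun h => hx0 ?_⟩
    have := h.2.2
    rwa [dec_code, h3] at this
  · have := h.2.2
    rw [dec_zero] at this
    exact (hw' l hl).bot this
  · simp only [hl, hx, hy, hk, true_and, dec_imp, sub, (hw' l hl).imp]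
  · have := h.2.2
    rw [dec_box] at this
    exact h3.2.2.2.2 _ this
  · simp only [hl, hk, true_and, dec_box, sub] at h
    obtain ⟨v, hv, h3, h4, h5⟩ := (hL n hn).1 _ (he1 l hl) x hx h
    obtain ⟨i, hi, rfl⟩ := he2 v hv
    exact ⟨i, hi, ⟨hn, hl, hi, h3⟩, fun h6 => h4 h6.2.2, hi, hk, by rw [dec_box]; exact h5⟩
  · exact ⟨h4.2.2.2.1, fun a ha => h4.2.2.2.2 a (h3.2.2.2.box_le (hw' l hl) le_rfl ha)⟩
  · refine ⟨⟨by omega, hl, hl', h.2.2.2.1, fun a ha => h.2.2.2.2 a ((hw' l hl).mono hj.le ha)⟩,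
      fun m hm => ?_⟩
    simp only [hl, hl', hm, true_and, R, h.2.2.2.box_iff (hw' l hl) hj]
  · obtain ⟨u, hu, h3⟩ : ∃ u ∈ L, ∀ i < L.card, bit z i → World (e i) ∧ ∀ j < n, ∀ a,
        (e i (box j a) ↔ u (box j a)) ∧ (u (box j a) → e i a) := by
      rcases hz with rfl | ⟨⟨i0, hi0, h3⟩, h4⟩
      · exact ⟨x0, hL0, fun i hi _ => ⟨hw' i hi, fun j hj => absurd hj (by omega)⟩⟩
      · refine ⟨e i0, he1 i0 hi0, fun i hi h5 => ⟨hw' i hi, fun j hj a => ?_⟩⟩
        have h6 := (h4 i0 hi0 i hi h3 h5).2.2.2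
        have h7 := (h4 i hi i0 hi0 h5 h3).2.2.2
        exact ⟨⟨h7.box_le (hw' i hi) (by omega), h6.box_le (hw' i0 hi0) (by omega)⟩,
          fun h8 => h6.2 a ((hw' i0 hi0).mono (by omega) h8)⟩
    obtain ⟨v, hv, h4, h5, h6⟩ := (hL n hn).2 u hu
      ((range K).filter fun x => ∀ i < L.card, bit z i →
        e i (sub σ (dec x)) ∧ e i (box n (sub σ (dec x)))) (filter_subset _ _)
    obtain ⟨r, hr, rfl⟩ := he2 v hv
    refine ⟨r, hr, fun i hi h7 => ⟨hn, hr, hi, h4 _ ⟨h3 i hi h7, fun x hx =>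
      (mem_filter.1 hx).2 i hi h7⟩⟩, fun j hj x hx hk h7 h8 => ⟨hr, hk, ?_⟩⟩
    rw [dec_box]
    rcases h7.lt_or_eq with h9 | h9
    · exact h6 j h9 _
    · subst h9
      refine h5 x (mem_filter.2 ⟨mem_range.2 hx, fun i hi h9 => ⟨(h8 rfl i hi h9).1.2.2, ?_⟩⟩)
      have := (h8 rfl i hi h9).2.2.2
      rwa [dec_box] at this

/-- the bounded search -/
def Chk (a b : ℕ) : Prop :=
  ∃ N < ((2 ^ (a + b + 1) + 1) * (a + b + 1 + 1) ^ (a + b + 1)) ^ (a + b + 1) + 1,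
    ∃ c < 2 ^ Nat.pair (a + b + 1) (Nat.pair N N), ∃ d < 2 ^ Nat.pair N (a + b + 1),
      Cert (a + b + 1) a b N (fun n i j => bit c (Nat.pair n (Nat.pair i j)))
        fun i k => bit d (Nat.pair i k)

theorem pair_lt {a b c d : ℕ} (h1 : a < c) (h2 : b < d) : Nat.pair a b < Nat.pair c d :=
  (Nat.pair_lt_pair_left b h1).trans (Nat.pair_lt_pair_right c h2)

theorem chk_iff (φ ψ : F ℕ) : Chk (code φ) (code ψ) ↔
    ∃ σ : ℕ → F ℕ, Prov ∅ (sub σ φ) ∧ ¬ Prov ∅ (sub σ ψ) := by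
  constructor
  · rintro ⟨N, -, c, -, d, -, h⟩
    exact sub_of_cert (by omega) (by omega) h
  · rintro ⟨σ, h1, h2⟩
    obtain ⟨N, hN, S, τ, h3, h4, h5⟩ := cert_of_sub (code φ + code ψ + 1) (by omega) h1 h2
    obtain ⟨c, hc, h6⟩ := exists_bits (Nat.pair (code φ + code ψ + 1) (Nat.pair N N))
      (fun m => S m.unpair.1 m.unpair.2.unpair.1 m.unpair.2.unpair.2) fun m hm => by
        obtain ⟨e1, e2, e3⟩ := h3 _ _ _ hm
        have := pair_lt e1 (pair_lt e2 e3)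
        rwa [Nat.pair_unpair, Nat.pair_unpair] at this
    obtain ⟨d, hd, h7⟩ := exists_bits (Nat.pair N (code φ + code ψ + 1))
      (fun m => τ m.unpair.1 m.unpair.2) fun m hm => by
        obtain ⟨e1, e2⟩ := h4 _ _ hm
        have := pair_lt e1 e2
        rwa [Nat.pair_unpair] at this
    refine ⟨N, Nat.lt_succ_of_le hN, c, hc, d, hd, ?_⟩
    simp only [h6, h7, Nat.unpair_pair]
    exact h5

end Pool.Agent.H616Z.GLP
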