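import Mathlib

/-!
The polymodal provability logic GLP: formulas, derivations, the canonical model.
-/

set_option autoImplicit false

namespace Pool.Agent.H616Z.GLP

/-- formulas -/
inductive F (α : Type) : Type
  | var (a : α) : F α
  | bot : F α
  | imp (a b : F α) : F α
  | box (k : ℕ) (a : F α) : F α

namespace F

variable {α β γ : Type}

/-- substitution -/
def sub (σ : α → F β) : F α → F β
  | var a => σ a
  | bot => bot
  | imp a b => imp (sub σ a) (sub σ b)
  | box k a => box k (sub σ a)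

/-- negation -/
abbrev neg (a : F α) : F α := imp a bot

/-- conjunction -/
abbrev and (a b : F α) : F α := neg (imp a (neg b))

theorem sub_sub (σ : α → F β) (τ : β → F γ) (a : F α) :
    sub τ (sub σ a) = sub (fun u => sub τ (σ u)) a := by
  induction a with
  | var a => rfl
  | bot => rfl
  | imp a b iha ihb => simp only [sub, iha, ihb]
  | box k a ih => simp only [sub, ih]

end F

open F

variable {α β : Type}

/-- derivations from hypotheses -/
inductive Prov (Γ : Set (F α)) : F α → Prop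
  | hyp {a : F α} : a ∈ Γ → Prov Γ a
  | ax1 (a b : F α) : Prov Γ (imp a (imp b a))
  | ax2 (a b c : F α) : Prov Γ (imp (imp a (imp b c)) (imp (imp a b) (imp a c)))
  | ax3 (a : F α) : Prov Γ (imp (imp (imp a bot) bot) a)
  | axK (k : ℕ) (a b : F α) : Prov Γ (imp (box k (imp a b)) (imp (box k a) (box k b)))
  | axL (k : ℕ) (a : F α) : Prov Γ (imp (box k (imp (box k a) a)) (box k a))
  | axM (m k : ℕ) (a : F α) : m ≤ k → Prov Γ (imp (box m a) (box k a))
  | axP (m k : ℕ) (a : F α) : m < k →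
      Prov Γ (imp (imp (box m (imp a bot)) bot) (box k (imp (box m (imp a bot)) bot)))
  | mp {a b : F α} : Prov Γ a → Prov Γ (imp a b) → Prov Γ b
  | nec (k : ℕ) {a : F α} : Prov Γ a → Prov Γ (box k a)

theorem Prov.weak {Γ : Set (F α)} {a : F α} (h : Prov ∅ a) : Prov Γ a := by
  induction h with
  | hyp h => exact absurd h (Set.notMem_empty _)
  | ax1 a b => exact .ax1 a b
  | ax2 a b c => exact .ax2 a b c
  | ax3 a => exact .ax3 a
  | axK k a b => exact .axK k a b
  | axL k a => exact .axL k a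
  | axM m k a h => exact .axM m k a h
  | axP m k a h => exact .axP m k a h
  | mp _ _ h1 h2 => exact .mp h1 h2
  | nec k _ h => exact .nec k h

theorem Prov.subst (σ : α → F β) {a : F α} (h : Prov ∅ a) : Prov ∅ (sub σ a) := by
  induction h with
  | hyp h => exact absurd h (Set.notMem_empty _)
  | ax1 a b => exact .ax1 _ _
  | ax2 a b c => exact .ax2 _ _ _
  | ax3 a => exact .ax3 _
  | axK k a b => exact .axK k _ _
  | axL k a => exact .axL k _
  | axM m k a h => exact .axM m k _ h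
  | axP m k a h => exact .axP m k _ h
  | mp _ _ h1 h2 => exact .mp h1 h2
  | nec k _ h => exact .nec k h

theorem prov_id (a : F α) : Prov ∅ (imp a a) :=
  .mp (.ax1 a a) (.mp (.ax1 a (imp a a)) (.ax2 a (imp a a) a))

/-- sets closed under theorems and modus ponens -/
def Closed (S : Set (F α)) : Prop :=
  (∀ a, Prov ∅ a → a ∈ S) ∧ ∀ a b, a ∈ S → imp a b ∈ S → b ∈ S

theorem Closed.ded {S : Set (F α)} (h : Closed S) (b : F α) :
    Closed {c | imp b c ∈ S} ∧ S ⊆ {c | imp b c ∈ S} ∧ b ∈ {c | imp b c ∈ S} := by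
  have h1 : S ⊆ {c | imp b c ∈ S} := fun c hc => h.2 _ _ hc (h.1 _ (.ax1 c b))
  refine ⟨⟨fun a ha => h1 (h.1 a ha), fun a c ha hc => ?_⟩, h1, h.1 _ (prov_id b)⟩
  exact h.2 _ _ ha (h.2 _ _ hc (h.1 _ (.ax2 b a c)))

theorem closed_prov : Closed {a : F α | Prov ∅ a} := ⟨fun _ h => h, fun _ _ h1 h2 => .mp h1 h2⟩

theorem Closed.explode {S : Set (F α)} (h : Closed S) (hb : bot ∈ S) (c : F α) : c ∈ S :=
  h.2 _ _ (h.2 _ _ hb (h.1 _ (.ax1 bot (imp c bot)))) (h.1 _ (.ax3 c))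

/-- worlds of the canonical model -/
structure World (w : F α → Prop) : Prop where
  bot : ¬ w bot
  imp : ∀ a b, w (imp a b) ↔ (w a → w b)
  thm : ∀ a, Prov ∅ a → w a

theorem lindenbaum {S : Set (F α)} (h : Closed S) (hb : bot ∉ S) :
    ∃ w, World w ∧ ∀ a ∈ S, w a := by
  obtain ⟨M, hSM, hM⟩ := zorn_subset_nonempty {T : Set (F α) | Closed T ∧ bot ∉ T}
    (fun c hc hch hne => by
      refine ⟨⋃₀ c, ⟨⟨fun a ha => ?_, fun a b ha hab => ?_⟩, ?_⟩, fun s hs => Set.subset_sUnion_of_mem hs⟩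
      · obtain ⟨s, hs⟩ := hne
        exact ⟨s, hs, (hc hs).1.1 a ha⟩
      · obtain ⟨s, hs, ha⟩ := ha
        obtain ⟨t, ht, hab⟩ := hab
        rcases hch.total hs ht with h1 | h1
        · exact ⟨t, ht, (hc ht).1.2 _ _ (h1 ha) hab⟩
        · exact ⟨s, hs, (hc hs).1.2 _ _ ha (h1 hab)⟩
      · rintro ⟨s, hs, hb⟩
        exact (hc hs).2 hb) S ⟨h, hb⟩
  have hC : Closed M := hM.prop.1
  have hneg : ∀ b, b ∉ M → imp b bot ∈ M := by
    intro b hb
    by_contra hn
    obtain ⟨h1, h2, h3⟩ := hC.ded b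
    exact hb (hM.le_of_ge ⟨h1, hn⟩ h2 h3)
  refine ⟨fun a => a ∈ M, ⟨hM.prop.2, fun a b => ⟨fun h1 h2 => hC.2 _ _ h2 h1, fun h1 => ?_⟩,
    hC.1⟩, fun a ha => hSM ha⟩
  by_cases ha : a ∈ M
  · exact hC.2 _ _ (h1 ha) (hC.1 _ (.ax1 b a))
  · obtain ⟨h2, h3, h4⟩ := hC.ded a
    exact h2.explode (h2.2 _ _ h4 (h3 (hneg a ha))) b

theorem complete {a : F α} (h : ∀ w, World w → w a) : Prov ∅ a := by
  by_contra hn
  obtain ⟨h1, -, h3⟩ := closed_prov.ded (imp a bot)
  obtain ⟨w, hw, hS⟩ := lindenbaum h1 (fun hb => hn (.mp hb (.ax3 a)))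
  exact hw.bot ((hw.imp _ _).1 (hS _ h3) (h w hw))

namespace World

variable {w : F α → Prop} (hw : World w)
include hw

theorem mp {a b : F α} (h : Prov ∅ (F.imp a b)) (ha : w a) : w b := (hw.imp _ _).1 (hw.thm _ h) ha

theorem neg (a : F α) : w (F.neg a) ↔ ¬ w a := by
  rw [hw.imp]; exact ⟨fun h1 h2 => hw.bot (h1 h2), fun h1 h2 => absurd h2 h1⟩

theorem and (a b : F α) : w (F.and a b) ↔ w a ∧ w b := by
  rw [hw.neg, hw.imp, hw.neg]; tauto

theorem K {k : ℕ} {a b : F α} (h1 : w (box k (F.imp a b))) (h2 : w (box k a)) : w (box k b) :=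
  (hw.imp _ _).1 (hw.mp (.axK k a b) h1) h2

theorem mono {m k : ℕ} (h : m ≤ k) {a : F α} (h1 : w (box m a)) : w (box k a) :=
  hw.mp (.axM m k a h) h1

theorem pull (σ : β → F α) : World fun a => w (sub σ a) :=
  ⟨hw.bot, fun _ _ => hw.imp _ _, fun _ h => hw.thm _ (h.subst σ)⟩

end World

/-- the canonical accessibility relation -/
def R (k : ℕ) (w z : F α → Prop) : Prop := World z ∧ ∀ a, w (box k a) → z a

/-- existence lemma for a directed family -/
theorem exists_succ {w : F α → Prop} (hw : World w) (k : ℕ) (T : Set (F α)) (hne : T.Nonempty)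
    (hdir : ∀ a ∈ T, ∀ b ∈ T, F.and a b ∈ T) (hT : ∀ a ∈ T, ¬ w (box k (neg a))) :
    ∃ z, R k w z ∧ ∀ a ∈ T, z a := by
  have h0 : ∀ a c, w (box k c) → w (box k (imp a c)) := fun a c h =>
    hw.K (hw.thm _ (.nec k (.ax1 c a))) h
  obtain ⟨z, hz, hS⟩ := lindenbaum (S := {c | ∃ a ∈ T, w (box k (imp a c))})
    ⟨fun c hc => by
      obtain ⟨a, ha⟩ := hne
      exact ⟨a, ha, h0 _ _ (hw.thm _ (.nec k hc))⟩,
    by
      rintro c d ⟨a, ha, h1⟩ ⟨b, hb, h2⟩
      refine ⟨_, hdir a ha b hb, hw.K (hw.K (hw.thm _ (.nec k (complete fun v hv => ?_))) h1) h2⟩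
      simp only [hv.imp, hv.bot]
      tauto⟩
    (by
      rintro ⟨a, ha, h1⟩
      exact hT a ha h1)
  obtain ⟨a0, ha0⟩ := hne
  exact ⟨z, ⟨hz, fun c hc => hS c ⟨a0, ha0, h0 _ _ hc⟩⟩,
    fun a ha => hS a ⟨a, ha, hw.thm _ (.nec k (prov_id a))⟩⟩

theorem World.box {w : F α → Prop} (hw : World w) (k : ℕ) (a : F α) :
    w (box k a) ↔ ∀ z, R k w z → z a := by
  refine ⟨fun h z hz => hz.2 a h, fun h => ?_⟩
  by_contra hn
  obtain ⟨z, hz, hT⟩ := exists_succ hw k {b | ∀ v, World v → (v b ↔ ¬ v a)}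
    ⟨F.neg a, fun v hv => hv.neg a⟩
    (fun b hb c hc v hv => by rw [hv.and, hb v hv, hc v hv, and_self])
    (fun b hb h1 => hn (hw.K (hw.thm _ (.nec k (complete fun v hv => by
      rw [hv.imp, hv.neg, hb v hv]; tauto))) h1))
  exact (hz.1.neg a).1 (hT _ fun v hv => hv.neg a) (h z hz)

theorem World.trans {w : F α → Prop} (hw : World w) {k : ℕ} {a : F α} (h : w (F.box k a)) :
    w (F.box k (F.box k a)) := by
  have h1 : w (F.box k (F.and a (F.box k a))) := by
    refine hw.mp (.axL k _) ((hw.box _ _).2 fun z hz => ?_)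
    rw [hz.1.imp, hz.1.and]
    refine fun h2 => ⟨hz.2 a h, (hz.1.box _ _).2 fun y hy => ?_⟩
    exact ((hy.1.and _ _).1 (hy.2 _ h2)).1
  exact (hw.box _ _).2 fun z hz => ((hz.1.and _ _).1 (hz.2 _ h1)).2

theorem World.box_congr {w : F α → Prop} (hw : World w) (k : ℕ) {a b : F α}
    (h : ∀ z, World z → (z a ↔ z b)) : w (F.box k a) ↔ w (F.box k b) := by
  rw [hw.box, hw.box]
  exact forall_congr' fun z => imp_congr_right fun hz => h z hz.1

theorem R.box_le {w z : F α → Prop} (hw : World w) {m k : ℕ} (h : R k w z) (hm : m ≤ k) {a : F α}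
    (h1 : w (box m a)) : z (box m a) := h.2 _ (hw.mono hm (hw.trans h1))

theorem R.box_iff {w z : F α → Prop} (hw : World w) {m k : ℕ} (h : R k w z) (hm : m < k)
    (a : F α) : z (box m a) ↔ w (box m a) := by
  refine ⟨fun h1 => ?_, h.box_le hw hm.le⟩
  by_contra hn
  have e : ∀ v, World v → (v (box m (neg (neg a))) ↔ v (box m a)) := fun v hv =>
    hv.box_congr m fun u hu => by rw [hu.neg, hu.neg, not_not]
  have h2 : w (neg (box m (neg (neg a)))) := (hw.neg _).2 fun h3 => hn ((e w hw).1 h3)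
  exact (h.1.neg _).1 (h.2 _ (hw.mp (.axP m k _ hm) h2)) ((e z h.1).2 h1)

theorem loeb_rule (k : ℕ) {a : F α} (h : ∀ w, World w → w (box k a) → w a) :
    ∀ w, World w → w a := fun w hw =>
  h w hw (hw.mp (.axL k a) (hw.thm _ (.nec k (complete fun v hv => (hv.imp _ _).2 (h v hv)))))

theorem hyp_sound {φ χ : F α} (h : Prov {φ} χ) :
    ∀ w, World w → w φ → w (box 0 φ) → w χ := by
  induction h with
  | hyp h =>
    rw [Set.mem_singleton_iff] at h
    subst h
    exact fun w _ h _ => h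
  | ax1 a b => exact fun w hw _ _ => hw.thm _ (.ax1 a b)
  | ax2 a b c => exact fun w hw _ _ => hw.thm _ (.ax2 a b c)
  | ax3 a => exact fun w hw _ _ => hw.thm _ (.ax3 a)
  | axK k a b => exact fun w hw _ _ => hw.thm _ (.axK k a b)
  | axL k a => exact fun w hw _ _ => hw.thm _ (.axL k a)
  | axM m k a h => exact fun w hw _ _ => hw.thm _ (.axM m k a h)
  | axP m k a h => exact fun w hw _ _ => hw.thm _ (.axP m k a h)
  | mp _ _ h1 h2 => exact fun w hw e1 e2 => (hw.imp _ _).1 (h2 w hw e1 e2) (h1 w hw e1 e2)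
  | nec k _ ih =>
    intro w hw _ e2
    exact (hw.box _ _).2 fun z hz =>
      ih z hz.1 (hz.2 _ (hw.mono (Nat.zero_le k) e2)) (hz.box_le hw (Nat.zero_le k) e2)

theorem hyp_complete {φ χ : F α} (h : ∀ w, World w → w φ → w (box 0 φ) → w χ) : Prov {φ} χ := by
  have h1 : Prov {φ} φ := .hyp rfl
  have h2 : Prov ∅ (imp φ (imp (box 0 φ) χ)) := complete fun w hw => by
    rw [hw.imp, hw.imp]; exact h w hw
  exact .mp (.nec 0 h1) (.mp h1 h2.weak)

end Pool.Agent.H616Z.GLP
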