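import Mathlib

/-!
The logic GLP and its admissible rules.
-/

set_option autoImplicit false

namespace Pool.Agent.H616Z.GLPAdm

/-- Formulas: variables, falsum, implication, and one box for each natural number (the other
Boolean connectives are abbreviations). -/
inductive Fm : Type
  | var (i : ℕ) : Fm
  | bot : Fm
  | imp (a b : Fm) : Fm
  | box (n : ℕ) (a : Fm) : Fm

/-- The diamond `⟨n⟩ a = ¬ [n] ¬ a`. -/
def Fm.dia (n : ℕ) (a : Fm) : Fm := .imp (.box n (.imp a .bot)) .bot

/-- Simultaneous substitution of formulas for the variables. -/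
def Fm.subst (σ : ℕ → Fm) : Fm → Fm
  | .var i => σ i
  | .bot => .bot
  | .imp a b => .imp (a.subst σ) (b.subst σ)
  | .box n a => .box n (a.subst σ)

/-- The Gödel number of a formula. -/
def Fm.code : Fm → ℕ
  | .bot => 0
  | .var i => 3 * i + 1
  | .imp a b => 3 * Nat.pair a.code b.code + 2
  | .box n a => 3 * Nat.pair n a.code + 3

/-- Propositional tautologies: formulas true under every truth assignment that respects falsum
and implication (variables and boxed formulas are the atoms). -/
def Taut (a : Fm) : Prop :=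
  ∀ v : Fm → Prop, ¬ v .bot → (∀ x y, v (.imp x y) ↔ (v x → v y)) → v a

/-- The theorems of `GLP`. -/
inductive GLP : Fm → Prop
  | taut {a : Fm} : Taut a → GLP a
  | distr (n : ℕ) (a b : Fm) : GLP (.imp (.box n (.imp a b)) (.imp (.box n a) (.box n b)))
  | loeb (n : ℕ) (a : Fm) : GLP (.imp (.box n (.imp (.box n a) a)) (.box n a))
  | mono (m n : ℕ) (a : Fm) : m < n → GLP (.imp (.box m a) (.box n a))
  | persist (m n : ℕ) (a : Fm) : m < n → GLP (.imp (a.dia m) (.box n (a.dia m)))
  | mp {a b : Fm} : GLP (.imp a b) → GLP a → GLP b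
  | nec {a : Fm} : GLP a → GLP (.box 0 a)

/-- The rule `a / b` is admissible in `GLP`. -/
def Admissible (a b : Fm) : Prop := ∀ σ : ℕ → Fm, GLP (a.subst σ) → GLP (b.subst σ)

end Pool.Agent.H616Z.GLPAdm
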