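import Pool.Agent.H616Z.GLP.Prim
import Pool.Agent.H616Z.GLP.Defs

/-!
Admissibility in GLP is decidable.
-/

set_option autoImplicit false

namespace Pool.Agent.H616Z.GLPAdm

open Pool.Agent.H616Z.GLP

/-- translation -/
def toF : Fm → F ℕ
  | .var i => .var i
  | .bot => .bot
  | .imp a b => .imp (toF a) (toF b)
  | .box n a => .box n (toF a)

/-- inverse translation -/
def ofF : F ℕ → Fm
  | .var i => .var i
  | .bot => .bot
  | .imp a b => .imp (ofF a) (ofF b)
  | .box n a => .box n (ofF a)

theorem ofF_toF (a : Fm) : ofF (toF a) = a := by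
  induction a <;> simp_all only [toF, ofF]

theorem toF_ofF (a : F ℕ) : toF (ofF a) = a := by
  induction a <;> simp_all only [toF, ofF]

theorem code_toF (a : Fm) : code (toF a) = a.code := by
  induction a <;> simp_all only [toF, code, Fm.code]

theorem toF_subst (σ : ℕ → Fm) (a : Fm) :
    toF (a.subst σ) = F.sub (fun i => toF (σ i)) (toF a) := by
  induction a <;> simp_all only [toF, F.sub, Fm.subst]

theorem glp_iff (a : Fm) : GLP a ↔ Prov ∅ (toF a) := by
  constructor
  · intro h
    induction h with
    | taut h => exact complete fun w hw => h (fun x => w (toF x)) hw.bot fun x y => hw.imp _ _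
    | distr n a b => exact .axK n _ _
    | loeb n a => exact .axL n _
    | mono m n a h => exact .axM m n _ h.le
    | persist m n a h => exact .axP m n _ h
    | mp _ _ h1 h2 => exact .mp h2 h1
    | nec _ h => exact .nec 0 h
  · intro h
    rw [← ofF_toF a]
    generalize toF a = b at h
    induction h with
    | hyp h => exact absurd h (Set.notMem_empty _)
    | ax1 a b => exact .taut fun v _ h => by simp only [ofF, h]; tauto
    | ax2 a b c => exact .taut fun v _ h => by simp only [ofF, h]; tauto
    | ax3 a => exact .taut fun v h0 h => by simp only [ofF, h]; tauto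
    | axK k a b => exact .distr k _ _
    | axL k a => exact .loeb k _
    | axM m k a h =>
      rcases h.lt_or_eq with h | h
      · exact .mono m k _ h
      · subst h
        exact .taut fun v _ h => by simp only [ofF, h]; tauto
    | axP m k a h => exact .persist m k _ h
    | mp _ _ h1 h2 => exact .mp h2 h1
    | nec k _ h =>
      rcases Nat.eq_zero_or_pos k with rfl | hk
      · exact .nec h
      · exact .mp (.mono 0 k _ hk) (.nec h)

theorem adm_iff (a b : Fm) : Admissible a b ↔ ¬ Chk a.code b.code := by
  rw [← code_toF, ← code_toF, chk_iff]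
  constructor
  · rintro h ⟨σ, h1, h2⟩
    have := h fun i => ofF (σ i)
    simp only [glp_iff, toF_subst, toF_ofF] at this
    exact h2 (this h1)
  · intro h σ h1
    rw [glp_iff, toF_subst] at h1 ⊢
    by_contra h2
    exact h ⟨_, h1, h2⟩

theorem main : ∃ f : ℕ × ℕ → Bool, Computable f ∧
    ∀ a b : Fm, f (a.code, b.code) = true ↔ Admissible a b := by
  obtain ⟨_, h⟩ := prim_chk.not
  exact ⟨_, h.to_comp, fun a b => by rw [decide_eq_true_iff, adm_iff]⟩

end Pool.Agent.H616Z.GLPAdm
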