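import Pool.Agent.H616Z.GLP.Basic

/-!
Exact formulas of GLP are projective.
-/

set_option autoImplicit false

namespace Pool.Agent.H616Z.GLP

open F

variable {α β : Type}

/-! ### a new root over a family of worlds -/

/-- truth at the new root -/
def rootv (n : ℕ) (y : F α → Prop) (Z : Set (F α → Prop)) : F α → Prop
  | var _ => False
  | bot => False
  | imp a b => rootv n y Z a → rootv n y Z b
  | box j a => (j < n → y (box j a)) ∧ (j = n → ∀ z ∈ Z, z a ∧ z (box n a))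

theorem world_root {n : ℕ} {y : F α → Prop} (hy : World y) {Z : Set (F α → Prop)}
    (hZ : ∀ z ∈ Z, World z ∧ ∀ j < n, ∀ a, (z (box j a) ↔ y (box j a)) ∧ (y (box j a) → z a)) :
    World (rootv n y Z) := by
  refine ⟨fun h => h, fun a b => Iff.rfl, fun a h => ?_⟩
  induction h with
  | hyp h => exact absurd h (Set.notMem_empty _)
  | ax1 a b => exact fun h _ => h
  | ax2 a b c => exact fun h1 h2 h3 => h1 h3 (h2 h3)
  | ax3 a => exact fun h => by_contra fun hn => h hn
  | axK k a b =>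
    refine fun h1 h2 => ⟨fun h => hy.K (h1.1 h) (h2.1 h), fun h z hz => ?_⟩
    have hw := (hZ z hz).1
    exact ⟨(hw.imp _ _).1 (h1.2 h z hz).1 (h2.2 h z hz).1, hw.K (h1.2 h z hz).2 (h2.2 h z hz).2⟩
  | axL k a =>
    refine fun h1 => ⟨fun h => hy.mp (.axL k a) (h1.1 h), fun h z hz => ?_⟩
    have hw := (hZ z hz).1
    subst h
    have h2 := hw.mp (.axL k a) (h1.2 rfl z hz).2
    exact ⟨(hw.imp _ _).1 (h1.2 rfl z hz).1 h2, h2⟩
  | axM m k a hmk =>
    refine fun h1 => ⟨fun h => hy.mono hmk (h1.1 (by omega)), fun h z hz => ?_⟩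
    rcases hmk.lt_or_eq with h2 | h2
    · have h3 := h1.1 (by omega)
      obtain ⟨hw, h4⟩ := hZ z hz
      exact ⟨(h4 m (by omega) a).2 h3, hw.mono (by omega) ((h4 m (by omega) a).1.2 h3)⟩
    · exact h1.2 (by omega) z hz
  | axP m k a hmk =>
    intro h1
    have h0 : m < n → ¬ y (box m (imp a bot)) := fun h h2 =>
      h1 ⟨fun _ => h2, fun h3 => by omega⟩
    refine ⟨fun h => hy.mp (.axP m k a hmk) ((hy.neg _).2 (h0 (by omega))), fun h z hz => ?_⟩
    obtain ⟨hw, h4⟩ := hZ z hz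
    have h5 : z (neg (box m (imp a bot))) :=
      (hw.neg _).2 fun h6 => h0 (by omega) ((h4 m (by omega) _).1.1 h6)
    exact ⟨h5, h ▸ hw.mp (.axP m k a hmk) h5⟩
  | mp _ _ h1 h2 => exact h2 h1
  | nec k h _ =>
    exact ⟨fun _ => hy.thm _ (.nec k h), fun _ z hz =>
      ⟨(hZ z hz).1.thm _ h, (hZ z hz).1.thm _ (.nec n h)⟩⟩

/-- a world with a maximal set of boxed formulas -/
theorem exists_max (n : ℕ) (T : Set (F α)) {y0 : F α → Prop} (h0 : World y0)
    (hT : ∀ a ∈ T, y0 a) : ∃ y, World y ∧ (∀ a ∈ T, y a) ∧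
      ∀ z, World z → (∀ a ∈ T, z a) → (∀ a, y (box n a) → z (box n a)) →
        ∀ a, z (box n a) → y (box n a) := by
  obtain ⟨M, -, hM⟩ := zorn_subset_nonempty
    {B : Set (F α) | ∃ y, World y ∧ (∀ a ∈ T, y a) ∧ B = {a | y (box n a)}}
    (fun c hc hch hne => by
      have hc' : ∀ s ∈ c, ∃ y, World y ∧ (∀ a ∈ T, y a) ∧ s = {a | y (box n a)} := hc
      choose! f hf using hc'
      obtain ⟨y, hy, hS⟩ := lindenbaum (S := {a | ∃ s ∈ c, ∀ t ∈ c, s ⊆ t → f t a})
        ⟨fun a ha => by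
          obtain ⟨s, hs⟩ := hne
          exact ⟨s, hs, fun t ht _ => (hf _ ht).1.thm a ha⟩,
        by
          rintro a b ⟨s, hs, h1⟩ ⟨t, ht, h2⟩
          rcases hch.total hs ht with h3 | h3
          · exact ⟨t, ht, fun u hu h4 =>
              ((hf _ hu).1.imp _ _).1 (h2 u hu h4) (h1 u hu (h3.trans h4))⟩
          · exact ⟨s, hs, fun u hu h4 =>
              ((hf _ hu).1.imp _ _).1 (h2 u hu (h3.trans h4)) (h1 u hu h4)⟩⟩
        (by
          rintro ⟨s, hs, h1⟩
          exact (hf _ hs).1.bot (h1 s hs subset_rfl))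
      refine ⟨_, ⟨y, hy, fun a ha => ?_, rfl⟩, fun s hs a ha => hS _ ⟨s, hs, fun t ht h => ?_⟩⟩
      · obtain ⟨s, hs⟩ := hne
        exact hS a ⟨s, hs, fun t ht _ => (hf _ ht).2.1 a ha⟩
      · have h1 := h ha
        rw [(hf _ ht).2.2] at h1
        exact h1) _ ⟨y0, h0, hT, rfl⟩
  obtain ⟨y, hy, h1, rfl⟩ := hM.prop
  exact ⟨y, hy, h1, fun z hz h2 h3 a h4 => hM.le_of_ge ⟨z, hz, h2, rfl⟩ h3 h4⟩

section exact

variable {γ : Type} {ι : α → F β} {σ : α → F γ} {φ : F α}

theorem exact_base (hex : ∀ ψ, Prov ∅ (sub σ ψ) → Prov {sub ι φ} (sub ι ψ))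
    {x : F β → Prop} (hx : World x) (h1 : x (sub ι φ)) (h2 : x (box 0 (sub ι φ))) :
    ∃ z, World z ∧ ∀ ψ, x (sub ι ψ) → z (sub σ ψ) := by
  obtain ⟨z, hz, hS⟩ := lindenbaum
    (S := {c | ∃ ψ, x (sub ι ψ) ∧ Prov ∅ (imp (sub σ ψ) c)})
    ⟨fun c hc => ⟨φ, h1, .mp hc (.ax1 _ _)⟩, by
      rintro c d ⟨a, ha, h3⟩ ⟨b, hb, h4⟩
      refine ⟨F.and a b, (hx.and _ _).2 ⟨ha, hb⟩, complete fun v hv => ?_⟩
      have h5 := hv.thm _ h3
      have h6 := hv.thm _ h4
      simp only [sub, hv.imp, hv.bot] at h5 h6 ⊢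
      tauto⟩
    (by
      rintro ⟨a, ha, h3⟩
      exact (hx.neg _).1 (hyp_sound (hex (neg a) h3) x hx h1 h2) ha)
  exact ⟨z, hz, fun ψ h => hS _ ⟨ψ, h, prov_id _⟩⟩

theorem iff_of_imp {x : F β → Prop} {z : F γ → Prop} (hx : World x) (hz : World z)
    (h : ∀ ψ, x (sub ι ψ) → z (sub σ ψ)) (ψ : F α) : z (sub σ ψ) ↔ x (sub ι ψ) :=
  ⟨fun h1 => by_contra fun hn => (hz.neg _).1 (h (neg ψ) ((hx.neg _).2 hn)) h1, h ψ⟩

theorem root_step {n : ℕ} {y : F β → Prop} (hy : World y) {y' : F γ → Prop} (hy' : World y')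
    (h1 : ∀ j < n, ∀ ψ, y' (box j (sub σ ψ)) ↔ y (box j (sub ι ψ)))
    (h2 : ∀ x, R n y x → ∃ z, (World z ∧ ∀ j < n, ∀ a, (z (box j a) ↔ y' (box j a)) ∧
      (y' (box j a) → z a)) ∧ ∀ ψ, x (sub ι ψ) → z (sub σ ψ)) :
    ∃ v, World v ∧ ∀ j < n + 1, ∀ ψ, v (box j (sub σ ψ)) ↔ y (box j (sub ι ψ)) := by
  choose! f hf using h2
  refine ⟨rootv n y' (f '' {x | R n y x}), world_root hy' ?_, fun j hj ψ => ?_⟩
  · rintro _ ⟨x, hx, rfl⟩
    exact (hf x hx).1
  · rcases (Nat.lt_succ_iff.1 hj).lt_or_eq with h | h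
    · rw [← h1 j h]
      exact ⟨fun h3 => h3.1 h, fun h3 => ⟨fun _ => h3, fun h4 => by omega⟩⟩
    · subst h
      refine ⟨fun h3 => (hy.box _ _).2 fun x hx => ?_, fun h3 => ⟨fun h4 => by omega, ?_⟩⟩
      · exact (iff_of_imp hx.1 (hf x hx).1.1 (hf x hx).2 ψ).1 (h3.2 rfl _ ⟨x, hx, rfl⟩).1
      · rintro - _ ⟨x, hx, rfl⟩
        exact ⟨(hf x hx).2 ψ (hx.2 _ h3), (hf x hx).2 (box j ψ) (hx.box_le hy le_rfl h3)⟩

theorem exact_lift (hex : ∀ ψ, Prov ∅ (sub σ ψ) → Prov {sub ι φ} (sub ι ψ))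
    {y : F β → Prop} (hy : World y) (h0 : y (box 0 (sub ι φ))) (n : ℕ) :
    ∃ v, World v ∧ ∀ j < n + 1, ∀ ψ, v (box j (sub σ ψ)) ↔ y (box j (sub ι ψ)) := by
  induction n with
  | zero =>
    refine root_step hy (hy.pull fun _ => (bot : F β)) (fun j hj => absurd hj (by omega))
      fun x hx => ?_
    obtain ⟨z, hz, h⟩ := exact_base hex hx.1 (hx.2 _ h0) (hx.box_le hy le_rfl h0)
    exact ⟨z, ⟨hz, fun j hj => absurd hj (by omega)⟩, h⟩
  | succ n ih =>
    obtain ⟨v, hv, h1⟩ := ih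
    obtain ⟨y', hy', h2, h3⟩ := exists_max n
      {a | ∃ j < n + 1, ∃ ψ, (a = sub σ (box j ψ) ∧ y (sub ι (box j ψ))) ∨
        (a = sub σ (neg (box j ψ)) ∧ y (sub ι (neg (box j ψ))))} hv (by
      rintro _ ⟨j, hj, ψ, ⟨rfl, h⟩ | ⟨rfl, h⟩⟩
      · exact (h1 j hj ψ).2 h
      · exact (hv.neg _).2 fun h4 => (hy.neg _).1 h ((h1 j hj ψ).1 h4))
    have h4 : ∀ j < n + 1, ∀ ψ, y' (box j (sub σ ψ)) ↔ y (box j (sub ι ψ)) := fun j hj ψ =>
      ⟨fun h => by_contra fun hn =>
        (hy'.neg _).1 (h2 _ ⟨j, hj, ψ, .inr ⟨rfl, (hy.neg _).2 hn⟩⟩) h,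
      fun h => h2 _ ⟨j, hj, ψ, .inl ⟨rfl, h⟩⟩⟩
    refine root_step hy hy' h4 fun x hx => ?_
    obtain ⟨z, hz, h5⟩ := exists_succ hy' n {a | ∃ ψ, a = sub σ ψ ∧ x (sub ι ψ)}
      ⟨_, neg bot, rfl, (hx.1.neg _).2 hx.1.bot⟩
      (by
        rintro _ ⟨a, rfl, ha⟩ _ ⟨b, rfl, hb⟩
        exact ⟨F.and a b, rfl, (hx.1.and _ _).2 ⟨ha, hb⟩⟩)
      (by
        rintro _ ⟨a, rfl, ha⟩ h
        exact (hx.1.neg _).1 (hx.2 _ (hy.mono (Nat.le_succ n) ((h4 n (by omega) (neg a)).1 h))) ha)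
    have h6 : ∀ ψ, x (sub ι ψ) → z (sub σ ψ) := fun ψ h => h5 _ ⟨ψ, rfl, h⟩
    refine ⟨z, ⟨hz.1, fun j hj a => ⟨?_, fun h => hz.2 _ (hy'.mono (by omega) h)⟩⟩, h6⟩
    rcases (Nat.lt_succ_iff.1 hj).lt_or_eq with h | h
    · exact hz.box_iff hy' h a
    · subst h
      refine ⟨h3 z hz.1 ?_ (fun b hb => hz.box_le hy' le_rfl hb) a, hz.box_le hy' le_rfl⟩
      rintro _ ⟨i, hi, ψ, ⟨rfl, h⟩ | ⟨rfl, h⟩⟩
      · exact h6 _ ((hx.box_iff hy hi _).2 h)
      · exact h6 _ ((hx.1.neg _).2 fun h7 => (hy.neg _).1 h ((hx.box_iff hy hi _).1 h7))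

end exact

/-! ### fixed points -/

/-- all boxes have level at least `m` -/
def Lev (m : ℕ) : F α → Prop
  | var _ => True
  | bot => True
  | imp a b => Lev m a ∧ Lev m b
  | box j a => m ≤ j ∧ Lev m a

theorem Lev.sub {m : ℕ} {τ : α → F β} (hτ : ∀ u, Lev m (τ u)) {a : F α} (h : Lev m a) :
    Lev m (sub τ a) := by
  induction a with
  | var a => exact hτ a
  | bot => trivial
  | imp a b iha ihb => exact ⟨iha h.1, ihb h.2⟩
  | box k a ih => exact ⟨h.1, ih h.2⟩

theorem lev_zero (a : F α) : Lev 0 a := by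
  induction a with
  | var a => trivial
  | bot => trivial
  | imp a b iha ihb => exact ⟨iha, ihb⟩
  | box k a ih => exact ⟨Nat.zero_le k, ih⟩

theorem sub_congr {m : ℕ} {E : F β} {τ τ' : α → F β}
    (h : ∀ w, World w → w E → w (box m E) → ∀ u, w (τ u) ↔ w (τ' u)) {C : F α} (hC : Lev m C) :
    ∀ w, World w → w E → w (box m E) → (w (sub τ C) ↔ w (sub τ' C)) := by
  induction C with
  | var a => exact fun w hw h1 h2 => h w hw h1 h2 a
  | bot => exact fun w _ _ _ => Iff.rfl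
  | imp a b iha ihb =>
    intro w hw h1 h2
    simp only [sub, hw.imp, iha hC.1 w hw h1 h2, ihb hC.2 w hw h1 h2]
  | box k a ih =>
    intro w hw _ h2
    simp only [sub, hw.box]
    exact forall_congr' fun z => imp_congr_right fun hz =>
      ih hC.2 z hz.1 (hz.2 _ (hw.mono hC.1 h2)) (hz.box_le hw hC.1 h2)

theorem fix_one [DecidableEq α] (m : ℕ) (a : α) {C : F α} (hC : Lev m C) {H : F α}
    (hH : H = box m (sub (Function.update var a (neg bot)) C)) :
    ∀ w, World w → (w H ↔ w (box m (sub (Function.update var a H) C))) := by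
  have h1 := sub_congr (m := m) (E := H) (τ := Function.update var a (neg bot))
    (τ' := Function.update var a H) (fun w hw h _ u => by
      by_cases hu : u = a
      · subst hu
        simp only [Function.update_self, hw.neg]
        exact ⟨fun _ => h, fun _ => hw.bot⟩
      · simp only [Function.update_of_ne hu]) hC
  have h2 := loeb_rule m (a := imp (box m (sub (Function.update var a H) C)) H) fun w hw h3 => by
    refine (hw.imp _ _).2 fun h4 => ?_
    have h5 : w (box m H) := hw.K h3 (hw.trans h4)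
    rw [hH, hw.box]
    exact fun z hz => (h1 z hz.1 (hz.2 _ h5) (hz.box_le hw le_rfl h5)).2 (hz.2 _ h4)
  refine fun w hw => ⟨fun h3 => (hw.box _ _).2 fun z hz => ?_, (hw.imp _ _).1 (h2 w hw)⟩
  have h5 : w (box m H) := by
    rw [hH] at h3 ⊢
    exact hw.trans h3
  refine (h1 z hz.1 (hz.2 _ h5) (hz.box_le hw le_rfl h5)).1 (hz.2 _ ?_)
  rwa [hH] at h3

theorem fix_all [DecidableEq α] (lev : α → ℕ) (U : Finset α) :
    ∀ C : α → F α, (∀ u ∈ U, ∀ u' ∈ U, Lev (lev u') (C u)) →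
      ∃ τ : α → F α, (∀ u ∉ U, τ u = var u) ∧
        ∀ u ∈ U, ∀ w, World w → (w (τ u) ↔ w (box (lev u) (sub τ (C u)))) := by
  induction U using Finset.induction_on_max_value lev with
  | empty => exact fun C _ => ⟨var, fun _ _ => rfl, fun u hu => absurd hu (Finset.notMem_empty u)⟩
  | insert a s ha hmax ih =>
    intro C hC
    have hm : ∀ u ∈ s, u ∈ insert a s := fun u hu => Finset.mem_insert_of_mem hu
    have ha' := Finset.mem_insert_self a s
    set H := box (lev a) (sub (Function.update var a (neg bot)) (C a)) with hH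
    have hup : ∀ m X, Lev m X → ∀ u, Lev m (Function.update var a X u) := fun m X hX u => by
      by_cases hu : u = a
      · subst hu
        rwa [Function.update_self]
      · rw [Function.update_of_ne hu]
        trivial
    obtain ⟨τ, h1, h2⟩ := ih (fun u => sub (Function.update var a H) (C u)) fun u hu u' hu' =>
      Lev.sub (hup _ H ⟨hmax u' hu',
        Lev.sub (hup _ (neg bot) ⟨trivial, trivial⟩) (hC a ha' u' (hm _ hu'))⟩)
        (hC u (hm _ hu) u' (hm _ hu'))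
    refine ⟨fun u => sub τ (Function.update var a H u), fun u hu => ?_, fun u hu w hw => ?_⟩
    · rw [Finset.mem_insert, not_or] at hu
      simp only [Function.update_of_ne hu.1, sub, h1 u hu.2]
    · rw [← F.sub_sub]
      rcases Finset.mem_insert.1 hu with rfl | hu
      · simp only [Function.update_self]
        exact fix_one (lev u) u (hC u ha' u ha') hH _ (hw.pull τ)
      · have hne : u ≠ a := fun h => ha (h ▸ hu)
        simp only [Function.update_of_ne hne, sub]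
        exact h2 u hu w hw

/-! ### Boolean formulas -/

/-- evaluation from the values of variables and of boxed formulas -/
def ev (a : α → Prop) (b : ℕ → F α → Prop) : F α → Prop
  | var i => a i
  | bot => False
  | imp x y => ev a b x → ev a b y
  | box j x => b j x

theorem World.ev {w : F β → Prop} (hw : World w) (σ : α → F β) (χ : F α) :
    w (sub σ χ) ↔ ev (fun i => w (σ i)) (fun j x => w (F.box j (sub σ x))) χ := by
  induction χ with
  | var a => exact Iff.rfl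
  | bot => exact ⟨hw.bot, False.elim⟩
  | imp a b iha ihb => simp only [sub, hw.imp, GLP.ev, iha, ihb]
  | box k a _ => exact Iff.rfl

theorem bool_rep [DecidableEq α] (U : Finset α) : ∀ f : (α → Prop) → Prop,
    (∀ b b', (∀ u ∈ U, b u ↔ b' u) → (f b ↔ f b')) →
      ∃ A : F α, (∀ m, Lev m A) ∧ ∀ b c, ev b c A ↔ f b := by
  induction U using Finset.induction_on with
  | empty =>
    intro f hf
    by_cases h : f fun _ => True
    · exact ⟨neg bot, fun m => ⟨trivial, trivial⟩, fun b c =>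
        ⟨fun _ => (hf _ _ (by simp)).1 h, fun _ h => h⟩⟩
    · exact ⟨bot, fun m => trivial, fun b c =>
        ⟨False.elim, fun h1 => h ((hf _ _ (by simp)).1 h1)⟩⟩
  | insert a s _ ih =>
    intro f hf
    have key : ∀ p : Prop, ∃ A : F α, (∀ m, Lev m A) ∧
        ∀ b c, ev b c A ↔ f (Function.update b a p) := fun p =>
      ih (fun b => f (Function.update b a p)) fun b b' h => hf _ _ fun u hu => by
        by_cases hua : u = a
        · subst hua
          simp only [Function.update_self]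
        · simp only [Function.update_of_ne hua]
          exact h u ((Finset.mem_insert.1 hu).resolve_left hua)
    obtain ⟨A1, h1, h2⟩ := key True
    obtain ⟨A0, h3, h4⟩ := key False
    refine ⟨F.and (imp (var a) A1) (imp (neg (var a)) A0),
      fun m => ⟨⟨⟨trivial, h1 m⟩, ⟨⟨trivial, trivial⟩, h3 m⟩, trivial⟩, trivial⟩, fun b c => ?_⟩
    simp only [ev, h2, h4]
    by_cases hb : b a
    · have : Function.update b a True = b := by
        rw [Function.update_eq_self_iff]; exact (eq_true hb).symm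
      rw [this]; tauto
    · have : Function.update b a False = b := by
        rw [Function.update_eq_self_iff]; exact (eq_false hb).symm
      rw [this]; tauto

/-- boxed subformulas -/
def subs [DecidableEq (ℕ × F α)] : F α → Finset (ℕ × F α)
  | var _ => ∅
  | bot => ∅
  | imp a b => subs a ∪ subs b
  | box j a => insert (j, a) (subs a)

theorem ev_congr [DecidableEq (ℕ × F α)] {a a' : α → Prop} {b b' : ℕ → F α → Prop}
    (ha : ∀ i, a i ↔ a' i) {χ : F α} (hb : ∀ p ∈ subs χ, b p.1 p.2 ↔ b' p.1 p.2) :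
    ev a b χ ↔ ev a' b' χ := by
  induction χ with
  | var i => exact ha i
  | bot => exact Iff.rfl
  | imp x y ihx ihy =>
    exact imp_congr (ihx fun p hp => hb p (Finset.mem_union_left _ hp))
      (ihy fun p hp => hb p (Finset.mem_union_right _ hp))
  | box k x _ => exact hb (k, x) (Finset.mem_insert_self _ _)

/-- the Boolean skeleton -/
def sk {γ : Type} (P : α → F ((ℕ × F α) ⊕ γ)) : F α → F ((ℕ × F α) ⊕ γ)
  | var i => P i
  | bot => bot
  | imp a b => imp (sk P a) (sk P b)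
  | box j a => var (.inl (j, a))

theorem lev_sk {γ : Type} {P : α → F ((ℕ × F α) ⊕ γ)} {m : ℕ} (h : ∀ i, Lev m (P i)) (χ : F α) :
    Lev m (sk P χ) := by
  induction χ with
  | var i => exact h i
  | bot => trivial
  | imp a b iha ihb => exact ⟨iha, ihb⟩
  | box k a _ => trivial

theorem sk_sub [DecidableEq (ℕ × F α)] {γ : Type} {P : α → F ((ℕ × F α) ⊕ γ)}
    {ρ : (ℕ × F α) ⊕ γ → F β} {U : Finset (ℕ × F α)}
    (h : ∀ p ∈ U, ∀ w, World w → (w (ρ (.inl p)) ↔ w (box p.1 (sub ρ (sk P p.2))))) {χ : F α}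
    (hχ : subs χ ⊆ U) :
    ∀ w, World w → (w (sub ρ (sk P χ)) ↔ w (sub (fun i => sub ρ (P i)) χ)) := by
  induction χ with
  | var i => exact fun w _ => Iff.rfl
  | bot => exact fun w _ => Iff.rfl
  | imp a b iha ihb =>
    intro w hw
    simp only [sk, sub, hw.imp, iha (Finset.subset_union_left.trans hχ) w hw,
      ihb (Finset.subset_union_right.trans hχ) w hw]
  | box k a ih =>
    intro w hw
    simp only [sk, sub]
    rw [h (k, a) (hχ (Finset.mem_insert_self _ _)) w hw]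
    exact hw.box_congr k (ih ((Finset.subset_insert _ _).trans hχ))

theorem subs_trans [DecidableEq (ℕ × F α)] {χ : F α} {p : ℕ × F α} (h : p ∈ subs χ) :
    subs (box p.1 p.2) ⊆ subs χ := by
  induction χ with
  | var i => exact absurd h (Finset.notMem_empty _)
  | bot => exact absurd h (Finset.notMem_empty _)
  | imp a b iha ihb =>
    rcases Finset.mem_union.1 h with h | h
    · exact (iha h).trans Finset.subset_union_left
    · exact (ihb h).trans Finset.subset_union_right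
  | box k a ih =>
    rcases Finset.mem_insert.1 h with rfl | h
    · exact subset_rfl
    · exact (ih h).trans (Finset.subset_insert _ _)

/-- a formula with the root extension property is projective -/
theorem projective_of_ext (ι : α → F β) (φ : F α)
    (hE : ∀ (τ : α → F β) (w : F β → Prop), World w → w (box 0 (sub τ φ)) →
      ∃ a, ev a (fun j x => w (box j (sub τ x))) φ) :
    ∃ τ : α → F β, Prov ∅ (sub τ φ) ∧
      ∀ i, Prov {sub ι φ} (imp (ι i) (τ i)) ∧ Prov {sub ι φ} (imp (τ i) (ι i)) := by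
  classical
  set U : Finset ((ℕ × F α) ⊕ Option α) := (subs φ).image .inl with hU
  let f : (((ℕ × F α) ⊕ Option α) → Prop) → α → Prop := fun b =>
    Classical.epsilon fun a => ev a (fun j x => (j, x) ∈ subs φ ∧ b (.inl (j, x))) φ
  have hA : ∀ i, ∃ A : F ((ℕ × F α) ⊕ Option α), (∀ m, Lev m A) ∧ ∀ b c, ev b c A ↔ f b i :=
    fun i => bool_rep U (fun b => f b i) fun b b' h => by
      have : (fun j x => (j, x) ∈ subs φ ∧ b (.inl (j, x))) =
          fun j x => (j, x) ∈ subs φ ∧ b' (.inl (j, x)) := by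
        funext j x
        exact propext (and_congr_right fun hp => h _ (Finset.mem_image_of_mem _ hp))
      simp only [f, this]
  choose A hA1 hA2 using hA
  let P : α → F ((ℕ × F α) ⊕ Option α) := fun i =>
    F.and (imp (var (.inr none)) (var (.inr (some i)))) (imp (neg (var (.inr none))) (A i))
  have hP : ∀ m i, Lev m (P i) := fun m i =>
    ⟨⟨⟨trivial, trivial⟩, ⟨⟨trivial, trivial⟩, hA1 i m⟩, trivial⟩, trivial⟩
  obtain ⟨τ, h1, h2⟩ := fix_all (Sum.elim Prod.fst fun _ => 0) U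
    (Sum.elim (fun p => sk P p.2) fun _ => bot) fun u _ u' _ => by
      rcases u with p | u
      · exact lev_sk (hP _) _
      · trivial
  let κ : (ℕ × F α) ⊕ Option α → F β := Sum.elim (fun _ => bot) fun o =>
    o.elim (F.and (sub ι φ) (box 0 (sub ι φ))) ι
  let ρ : (ℕ × F α) ⊕ Option α → F β := fun u => sub κ (τ u)
  have hr : ∀ o, ρ (.inr o) = κ (.inr o) := fun o => by
    simp only [ρ, h1 (.inr o) (by simp [hU]), sub]
  have h3 : ∀ p ∈ subs φ, ∀ w, World w →
      (w (ρ (.inl p)) ↔ w (box p.1 (sub ρ (sk P p.2)))) := fun p hp w hw => by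
    have := h2 (.inl p) (Finset.mem_image_of_mem _ hp) _ (hw.pull κ)
    simpa only [Sum.elim_inl, sub, F.sub_sub] using this
  let τ' : α → F β := fun i => sub ρ (P i)
  have h4 : ∀ w, World w → ∀ i, w (τ' i) ↔
      ((w (sub ι φ) ∧ w (box 0 (sub ι φ)) → w (ι i)) ∧
        (¬ (w (sub ι φ) ∧ w (box 0 (sub ι φ))) → f (fun u => w (ρ u)) i)) := fun w hw i => by
    have e : sub ρ (P i) = F.and (imp (ρ (.inr none)) (ρ (.inr (some i))))
      (imp (neg (ρ (.inr none))) (sub ρ (A i))) := rfl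
    simp only [τ']
    rw [e, hw.and, hw.imp, hw.imp, hw.neg, hr, hr, hw.ev ρ (A i), hA2]
    simp only [κ, Sum.elim_inr, Option.elim, hw.and]
  have h5 : ∀ w, World w → w (sub ι φ) → w (box 0 (sub ι φ)) → ∀ i, w (τ' i) ↔ w (ι i) :=
    fun w hw e1 e2 i => by rw [h4 w hw]; tauto
  refine ⟨τ', complete (loeb_rule 0 fun w hw h => ?_), fun i => ⟨hyp_complete fun w hw e1 e2 =>
    (hw.imp _ _).2 (h5 w hw e1 e2 i).2, hyp_complete fun w hw e1 e2 =>
    (hw.imp _ _).2 (h5 w hw e1 e2 i).1⟩⟩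
  by_cases hg : w (sub ι φ) ∧ w (box 0 (sub ι φ))
  · exact (sub_congr h5 (lev_zero φ) w hw hg.1 hg.2).2 hg.1
  · have h6 : ∀ p ∈ subs φ, (p ∈ subs φ ∧ w (ρ (.inl p))) ↔ w (box p.1 (sub τ' p.2)) :=
      fun p hp => by
        rw [and_iff_right hp]
        exact sk_sub h3 (subs_trans hp) w hw
    obtain ⟨a, ha⟩ := hE τ' w hw h
    have h7 := Classical.epsilon_spec (p := fun a =>
      ev a (fun j x => (j, x) ∈ subs φ ∧ w (ρ (.inl (j, x)))) φ)
      ⟨a, (ev_congr (fun _ => Iff.rfl) h6).2 ha⟩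
    rw [hw.ev]
    refine (ev_congr (fun i => ?_) h6).1 h7
    rw [h4 w hw]
    tauto

theorem main {n : ℕ} (φ : F (Fin n)) (σ : Fin n → F ℕ)
    (hex : ∀ ψ, Prov ∅ (sub σ ψ) ↔ Prov {sub (fun i => var i.val) φ} (sub (fun i => var i.val) ψ)) :
    ∃ τ : Fin n → F ℕ, Prov ∅ (sub τ φ) ∧
      ∀ i, Prov {sub (fun i => var i.val) φ} (imp (var i.val) (τ i)) ∧
        Prov {sub (fun i => var i.val) φ} (imp (τ i) (var i.val)) := by
  classical
  refine projective_of_ext (fun i => var i.val) φ fun τ w hw h => ?_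
  let τ' : ℕ → F ℕ := fun k => if hk : k < n then τ ⟨k, hk⟩ else bot
  have e : ∀ x : F (Fin n), sub τ' (sub (fun i => var i.val) x) = sub τ x := fun x => by
    rw [F.sub_sub]
    congr 1
    funext i
    simp only [sub, τ', i.2, dif_pos]
  obtain ⟨v, hv, h1⟩ := exact_lift (fun ψ => (hex ψ).1) (hw.pull τ')
    (by simpa only [sub, e] using h) ((subs φ).sup Prod.fst)
  refine ⟨fun i => v (σ i), (ev_congr (fun _ => Iff.rfl) fun p hp => ?_).1
    ((hv.ev σ φ).1 (hv.thm _ ((hex φ).2 (.hyp rfl))))⟩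
  have := h1 p.1 (Nat.lt_succ_of_le (Finset.le_sup (f := Prod.fst) hp)) p.2
  simpa only [sub, e] using this

end Pool.Agent.H616Z.GLP
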