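import Pool.Agent.H616Z.GLP.Adm2

/-!
The bounded search is primitive recursive.
-/

set_option autoImplicit false

namespace Pool.Agent.H616Z.GLP

section comb

variable {α β γ : Type} [Primcodable α] [Primcodable β] [Primcodable γ]

theorem p_id : Primrec fun a : α => a := Primrec.id
theorem p_const (c : ℕ) : Primrec fun _ : α => c := Primrec.const c
theorem p_fst {g : α → β × γ} (h : Primrec g) : Primrec fun a => (g a).1 := Primrec.fst.comp h
theorem p_snd {g : α → β × γ} (h : Primrec g) : Primrec fun a => (g a).2 := Primrec.snd.comp h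

variable {f g : α → ℕ}

theorem p_add (hf : Primrec f) (hg : Primrec g) : Primrec fun a => f a + g a :=
  Primrec.nat_add.comp hf hg
theorem p_sub (hf : Primrec f) (hg : Primrec g) : Primrec fun a => f a - g a :=
  Primrec.nat_sub.comp hf hg
theorem p_mul (hf : Primrec f) (hg : Primrec g) : Primrec fun a => f a * g a :=
  Primrec.nat_mul.comp hf hg
theorem p_pow (hf : Primrec f) (hg : Primrec g) : Primrec fun a => f a ^ g a :=
  (Primrec₂.unpaired'.1 Nat.Primrec.pow).comp hf hg
theorem p_pair (hf : Primrec f) (hg : Primrec g) : Primrec fun a => Nat.pair (f a) (g a) :=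
  Primrec₂.natPair.comp hf hg
theorem q_lt (hf : Primrec f) (hg : Primrec g) : PrimrecPred fun a => f a < g a :=
  Primrec.nat_lt.comp hf hg
theorem q_le (hf : Primrec f) (hg : Primrec g) : PrimrecPred fun a => f a ≤ g a :=
  Primrec.nat_le.comp hf hg
theorem q_eq (hf : Primrec f) (hg : Primrec g) : PrimrecPred fun a => f a = g a :=
  Primrec.eq.comp hf hg
theorem q_bit (hf : Primrec f) (hg : Primrec g) : PrimrecPred fun a => bit (f a) (g a) :=
  q_eq (Primrec.nat_mod.comp (Primrec.nat_div.comp hf (p_pow (p_const 2) hg)) (p_const 2))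
    (p_const 1)

variable {p q : α → Prop}

theorem q_not (hp : PrimrecPred p) : PrimrecPred fun a => ¬ p a := hp.not
theorem q_and (hp : PrimrecPred p) (hq : PrimrecPred q) : PrimrecPred fun a => p a ∧ q a :=
  hp.and hq
theorem q_or (hp : PrimrecPred p) (hq : PrimrecPred q) : PrimrecPred fun a => p a ∨ q a :=
  hp.or hq
theorem q_imp (hp : PrimrecPred p) (hq : PrimrecPred q) : PrimrecPred fun a => p a → q a :=
  (hp.not.or hq).of_eq fun _ => imp_iff_not_or.symm
theorem q_iff (hp : PrimrecPred p) (hq : PrimrecPred q) : PrimrecPred fun a => p a ↔ q a :=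
  ((q_imp hp hq).and (q_imp hq hp)).of_eq fun _ => iff_iff_implies_and_implies.symm

theorem q_all {r : α → ℕ → Prop} (hf : Primrec f) (hr : PrimrecPred fun z : ℕ × α => r z.2 z.1) :
    PrimrecPred fun a => ∀ x < f a, r a x :=
  ((PrimrecRel.forall_mem_list (R := fun x a => r a x) hr).comp (Primrec.list_range.comp hf)
    Primrec.id).of_eq (by simp)

theorem q_ex {r : α → ℕ → Prop} (hf : Primrec f) (hr : PrimrecPred fun z : ℕ × α => r z.2 z.1) :
    PrimrecPred fun a => ∃ x < f a, r a x :=
  ((PrimrecRel.exists_mem_list (R := fun x a => r a x) hr).comp (Primrec.list_range.comp hf)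
    Primrec.id).of_eq (by simp)

end comb

theorem prim_chk : PrimrecPred fun z : ℕ × ℕ => Chk z.1 z.2 := by
  unfold Chk Cert
  repeat' with_reducible first
    | exact p_id
    | exact p_const _
    | apply p_fst
    | apply p_snd
    | apply p_add
    | apply p_sub
    | apply p_mul
    | apply p_pow
    | apply p_pair
    | apply q_bit
    | apply q_all
    | apply q_ex
    | apply q_and
    | apply q_or
    | apply q_iff
    | apply q_lt
    | apply q_le
    | apply q_eq
    | apply q_not
    | apply q_imp

end Pool.Agent.H616Z.GLP
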