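import Pool.Agent.H616Z.GLP.Main

/-!
Translation between first-order terms and formulas.
-/

set_option autoImplicit false

namespace Pool.Agent.H616Z.GLP

open FirstOrder FirstOrder.Language

variable {L : FirstOrder.Language.{0, 0}} {α β : Type}

/-- from formulas to terms -/
def toT (c0 : L.Functions 0) (cimp : L.Functions 2) (cbox : ℕ → L.Functions 1) :
    F α → L.Term α
  | .var a => .var a
  | .bot => .func c0 ![]
  | .imp a b => .func cimp ![toT c0 cimp cbox a, toT c0 cimp cbox b]
  | .box k a => .func (cbox k) ![toT c0 cimp cbox a]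

/-- one step of the translation from terms to formulas -/
def step (g : L.Functions 1 → ℕ) : (l : ℕ) → L.Functions l → (Fin l → F α) → F α
  | 1, f, x => .box (g f) (x 0)
  | 2, _, x => .imp (x 0) (x 1)
  | _, _, _ => .bot

/-- from terms to formulas -/
def ofT (g : L.Functions 1 → ℕ) : L.Term α → F α
  | .var a => .var a
  | .func f ts => step g _ f fun i => ofT g (ts i)

theorem ofT_subst (g : L.Functions 1 → ℕ) (σ : α → L.Term β) (t : L.Term α) :
    ofT g (t.subst σ) = F.sub (fun a => ofT g (σ a)) (ofT g t) := by
  induction t with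
  | var a => rfl
  | @func l f ts ih =>
    simp only [Term.subst, ofT, ih]
    match l, f, ts with
    | 0, _, _ => rfl
    | 1, _, _ => rfl
    | 2, _, _ => rfl
    | (_ + 3), _, _ => rfl

theorem ofT_relabel (g : L.Functions 1 → ℕ) (σ : α → β) (t : L.Term α) :
    ofT g (t.relabel σ) = F.sub (fun a => .var (σ a)) (ofT g t) := by
  induction t with
  | var a => rfl
  | @func l f ts ih =>
    simp only [Term.relabel, ofT, ih]
    match l, f, ts with
    | 0, _, _ => rfl
    | 1, _, _ => rfl
    | 2, _, _ => rfl
    | (_ + 3), _, _ => rfl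

variable {c0 : L.Functions 0} {cimp : L.Functions 2} {cbox : ℕ → L.Functions 1}
  {g : L.Functions 1 → ℕ}

theorem ofT_toT (hg : ∀ k, g (cbox k) = k) (a : F α) : ofT g (toT c0 cimp cbox a) = a := by
  induction a with
  | var a => rfl
  | bot => rfl
  | imp a b iha ihb => simp [toT, ofT, step, iha, ihb]
  | box k a ih => simp [toT, ofT, step, ih, hg]

theorem toT_ofT (h0 : ∀ f : L.Functions 0, f = c0) (h2 : ∀ f : L.Functions 2, f = cimp)
    (hg : ∀ f, cbox (g f) = f) (h3 : ∀ n : ℕ, 3 ≤ n → IsEmpty (L.Functions n)) (t : L.Term α) :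
    toT c0 cimp cbox (ofT g t) = t := by
  induction t with
  | var a => rfl
  | @func l f ts ih =>
    match l, f, ts, ih with
    | 0, f, ts, _ =>
      rw [h0 f]
      simp only [ofT, step, toT]
      congr 1
      exact Subsingleton.elim _ _
    | 1, f, ts, ih =>
      simp only [ofT, step, toT, hg, ih]
      congr 1
      funext i
      fin_cases i
      rfl
    | 2, f, ts, ih =>
      rw [h2 f]
      simp only [ofT, step, toT, ih]
      congr 1
      funext i
      fin_cases i <;> rfl
    | (k + 3), f, _, _ => exact ((h3 (k + 3) (by omega)).false f).elim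

end Pool.Agent.H616Z.GLP
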